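import Pool.Agent.R810.TT.Smp

/-! The asymptotic bound. -/

set_option autoImplicit false
open Finset
open scoped Classical

namespace Pool.Agent.R810.TT

open Pool.Agent.R810.TC (Covers MonoIn DI DI_card_le)

theorem asym2 {η : ℝ} (hη : 0 < η) (hη1 : η ≤ 4 / 9) :
    ∃ ε : ℝ, 0 < ε ∧ ∃ n0 : ℕ, ∀ n, n0 ≤ n → ∀ T : Finset (Finset (Fin n)),
      (∀ e ∈ T, e.card = 3) → Covers T → ∀ c : Fin n → Fin n → Bool, (∀ x y, c x y = c y x) →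
      ((bad2 T c).card : ℝ) ≤ ε * (n : ℝ) ^ 3 →
      (∀ s, (n : ℝ) * (n - 1) / 10 ≤ (BB (wS c s) : ℝ)) →
      (4 / 9 - η) * (n : ℝ) ^ 3 ≤ 6 * (T.card : ℝ) := by
  obtain ⟨k, hk⟩ : ∃ k : ℕ, k = max 400 ⌈4000000 / η⌉₊ := ⟨_, rfl⟩
  have hk400 : 400 ≤ k := by rw [hk]; exact le_max_left _ _
  have hkR : (400 : ℝ) ≤ k := by exact_mod_cast hk400
  have hkη : 4000000 / η ≤ k := by
    rw [hk]
    exact (Nat.le_ceil _).trans (by exact_mod_cast le_max_right _ _)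
  have hkη' : 4000000 ≤ η * k := by
    rw [div_le_iff₀ hη] at hkη
    linarith
  have kpos : (0 : ℝ) < k := by linarith
  refine ⟨η / (24 * (k : ℝ) ^ 3), by positivity, max 25 ⌈4 * (k : ℝ) ^ 3 / η⌉₊, ?_⟩
  intro n hn T h3 hT c hs hbad hcol
  set ε : ℝ := η / (24 * (k : ℝ) ^ 3) with hε
  have hεk : (k : ℝ) ^ 3 * (6 * ε) = η / 4 := by
    rw [hε]
    field_simp
    ring
  have n25 : 25 ≤ n := (le_max_left _ _).trans hn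
  have n25R : (25 : ℝ) ≤ n := by exact_mod_cast n25
  have n2 : 4 * (k : ℝ) ^ 3 / η ≤ n :=
    (Nat.le_ceil _).trans (by exact_mod_cast (le_max_right _ _).trans hn)
  have npos : (0 : ℝ) < n := by linarith
  have hkn : (k : ℝ) ^ 3 ≤ η / 4 * n := by
    rw [div_le_iff₀ hη] at n2
    linarith
  have hA : 0 ≤ 4 * (k : ℤ) ^ 3 - 144 * (k : ℤ) ^ 2 := by
    have : (400 : ℤ) ≤ k := by exact_mod_cast hk400
    have h2 : 4 * (k : ℤ) ^ 3 - 144 * (k : ℤ) ^ 2 = (k : ℤ) ^ 2 * (4 * k - 144) := by ring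
    rw [h2]
    exact mul_nonneg (sq_nonneg _) (by linarith)
  have hmain := all_maps2 (k := k) (by omega) h3 hT hs hA
  set G : ℤ := ∑ s, ∑ f : Fin k → Fin n, gam2 c f s with hG
  have hmainR : (4 * (k : ℝ) ^ 3 - 144 * (k : ℝ) ^ 2) * ((n : ℝ) ^ k - ((DI (Fin k)).card : ℝ) *
      ((n : ℝ) ^ (k - 3) * (n : ℝ) ^ 2 + (n : ℝ) ^ (k - 3) * (6 * ((bad2 T c).card : ℝ))) -
      (G : ℝ)) ≤ 9 * (((DI (Fin k)).card : ℝ) * ((n : ℝ) ^ (k - 3) * (6 * (T.card : ℝ)))) := by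
    exact_mod_cast hmain
  have hD1 : ((DI (Fin k)).card : ℝ) ≤ (k : ℝ) ^ 3 := by
    have := DI_card_le (I := Fin k)
    rw [Fintype.card_fin] at this
    exact_mod_cast this
  have hD0 : (0 : ℝ) ≤ ((DI (Fin k)).card : ℝ) := Nat.cast_nonneg _
  -- the rare colours
  have hGle : (G : ℝ) * k ≤ 1920000 * (n : ℝ) ^ k := by
    have h1 : ∀ s : Bool, ((∑ f : Fin k → Fin n, gam2 c f s : ℤ) : ℝ) * (k : ℝ) ≤
        960000 * (n : ℝ) ^ k := by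
      intro s
      refine cheb2 (by omega) (by omega) c s (b := (BB (wS c s) : ℝ) / (n : ℝ) ^ 2) ?_ ?_ hk400
      · field_simp
      · rw [le_div_iff₀ (by positivity)]
        refine le_trans ?_ (hcol s)
        nlinarith
    have h2 : (G : ℝ) = ((∑ f : Fin k → Fin n, gam2 c f true : ℤ) : ℝ) +
        ((∑ f : Fin k → Fin n, gam2 c f false : ℤ) : ℝ) := by
      rw [hG, Fintype.sum_bool]
      push_cast
      rfl
    rw [h2, add_mul]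
    have a1 := h1 true
    have a2 := h1 false
    linarith
  have hPn : (0 : ℝ) < (n : ℝ) ^ k := by positivity
  have hG2 : (G : ℝ) ≤ η / 2 * (n : ℝ) ^ k := by
    have h1 : (k : ℝ) * (G : ℝ) ≤ (k : ℝ) * (η / 2 * (n : ℝ) ^ k) := by
      have : 4000000 * (n : ℝ) ^ k ≤ η * k * (n : ℝ) ^ k :=
        mul_le_mul_of_nonneg_right hkη' hPn.le
      nlinarith
    exact le_of_mul_le_mul_left h1 kpos
  have npow : (n : ℝ) ^ k = (n : ℝ) ^ (k - 3) * (n : ℝ) ^ 3 := by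
    rw [← pow_add]
    congr 1
    omega
  have hNk : (0 : ℝ) < (n : ℝ) ^ (k - 3) := by positivity
  have hb1 : ((DI (Fin k)).card : ℝ) * ((n : ℝ) ^ (k - 3) * (n : ℝ) ^ 2 +
      (n : ℝ) ^ (k - 3) * (6 * ((bad2 T c).card : ℝ))) ≤ η / 2 * (n : ℝ) ^ k := by
    have h5 : (n : ℝ) ^ (k - 3) * (n : ℝ) ^ 2 +
      (n : ℝ) ^ (k - 3) * (6 * ((bad2 T c).card : ℝ)) ≤ (n : ℝ) ^ (k - 3) *
        ((n : ℝ) ^ 2 + 6 * (ε * (n : ℝ) ^ 3)) := by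
      rw [← mul_add]
      exact mul_le_mul_of_nonneg_left (by linarith) hNk.le
    have hε0 : 0 ≤ ε := by positivity
    have h7 : 0 ≤ (n : ℝ) ^ 2 + 6 * (ε * (n : ℝ) ^ 3) := by positivity
    have h6 : (k : ℝ) ^ 3 * ((n : ℝ) ^ 2 + 6 * (ε * (n : ℝ) ^ 3)) ≤ η / 2 * (n : ℝ) ^ 3 := by
      have a1 := mul_le_mul_of_nonneg_right hkn (by positivity : (0 : ℝ) ≤ (n : ℝ) ^ 2)
      calc (k : ℝ) ^ 3 * ((n : ℝ) ^ 2 + 6 * (ε * (n : ℝ) ^ 3)) =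
          (k : ℝ) ^ 3 * (n : ℝ) ^ 2 + ((k : ℝ) ^ 3 * (6 * ε)) * (n : ℝ) ^ 3 := by ring
        _ = (k : ℝ) ^ 3 * (n : ℝ) ^ 2 + η / 4 * (n : ℝ) ^ 3 := by rw [hεk]
        _ ≤ η / 4 * n * (n : ℝ) ^ 2 + η / 4 * (n : ℝ) ^ 3 := by linarith
        _ = η / 2 * (n : ℝ) ^ 3 := by ring
    calc ((DI (Fin k)).card : ℝ) * ((n : ℝ) ^ (k - 3) * (n : ℝ) ^ 2 +
      (n : ℝ) ^ (k - 3) * (6 * ((bad2 T c).card : ℝ))) ≤
        ((DI (Fin k)).card : ℝ) * ((n : ℝ) ^ (k - 3) * ((n : ℝ) ^ 2 + 6 * (ε * (n : ℝ) ^ 3))) :=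
          mul_le_mul_of_nonneg_left h5 hD0
      _ ≤ (k : ℝ) ^ 3 * ((n : ℝ) ^ (k - 3) * ((n : ℝ) ^ 2 + 6 * (ε * (n : ℝ) ^ 3))) :=
          mul_le_mul_of_nonneg_right hD1 (by positivity)
      _ = (n : ℝ) ^ (k - 3) * ((k : ℝ) ^ 3 * ((n : ℝ) ^ 2 + 6 * (ε * (n : ℝ) ^ 3))) := by ring
      _ ≤ (n : ℝ) ^ (k - 3) * (η / 2 * (n : ℝ) ^ 3) := mul_le_mul_of_nonneg_left h6 hNk.le
      _ = η / 2 * (n : ℝ) ^ k := by rw [npow]; ring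
  have hAR : (4 - η) * (k : ℝ) ^ 3 ≤ 4 * (k : ℝ) ^ 3 - 144 * (k : ℝ) ^ 2 := by
    have : 144 * (k : ℝ) ^ 2 ≤ η * k * (k : ℝ) ^ 2 :=
      mul_le_mul_of_nonneg_right (by linarith) (by positivity)
    nlinarith
  have hk3 : (0 : ℝ) < (k : ℝ) ^ 3 := by positivity
  have hT0 : (0 : ℝ) ≤ (T.card : ℝ) := Nat.cast_nonneg _
  have s1 : (4 - η) * (k : ℝ) ^ 3 * ((1 - η) * (n : ℝ) ^ k) ≤
      9 * ((k : ℝ) ^ 3 * ((n : ℝ) ^ (k - 3) * (6 * (T.card : ℝ)))) := by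
    have a1 : (1 - η) * (n : ℝ) ^ k ≤ (n : ℝ) ^ k - ((DI (Fin k)).card : ℝ) *
      ((n : ℝ) ^ (k - 3) * (n : ℝ) ^ 2 + (n : ℝ) ^ (k - 3) * (6 * ((bad2 T c).card : ℝ))) -
      (G : ℝ) := by linarith
    have a2 : 0 ≤ (1 - η) * (n : ℝ) ^ k := mul_nonneg (by linarith) hPn.le
    have a3 : (0 : ℝ) ≤ 4 * (k : ℝ) ^ 3 - 144 * (k : ℝ) ^ 2 := by exact_mod_cast hA
    calc (4 - η) * (k : ℝ) ^ 3 * ((1 - η) * (n : ℝ) ^ k) ≤
        (4 * (k : ℝ) ^ 3 - 144 * (k : ℝ) ^ 2) * ((1 - η) * (n : ℝ) ^ k) :=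
          mul_le_mul_of_nonneg_right hAR a2
      _ ≤ (4 * (k : ℝ) ^ 3 - 144 * (k : ℝ) ^ 2) * ((n : ℝ) ^ k - ((DI (Fin k)).card : ℝ) *
      ((n : ℝ) ^ (k - 3) * (n : ℝ) ^ 2 + (n : ℝ) ^ (k - 3) * (6 * ((bad2 T c).card : ℝ))) -
      (G : ℝ)) := mul_le_mul_of_nonneg_left a1 a3
      _ ≤ 9 * (((DI (Fin k)).card : ℝ) * ((n : ℝ) ^ (k - 3) * (6 * (T.card : ℝ)))) := hmainR
      _ ≤ 9 * ((k : ℝ) ^ 3 * ((n : ℝ) ^ (k - 3) * (6 * (T.card : ℝ)))) :=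
        mul_le_mul_of_nonneg_left (mul_le_mul_of_nonneg_right hD1 (by positivity)) (by norm_num)
  have s2 : ((k : ℝ) ^ 3 * (n : ℝ) ^ (k - 3)) * ((4 - η) * (1 - η) * (n : ℝ) ^ 3) ≤
      ((k : ℝ) ^ 3 * (n : ℝ) ^ (k - 3)) * (9 * (6 * (T.card : ℝ))) := by
    rw [npow] at s1
    linarith
  have s3 := le_of_mul_le_mul_left s2 (by positivity)
  have s4 : (4 - 5 * η) * (n : ℝ) ^ 3 ≤ (4 - η) * (1 - η) * (n : ℝ) ^ 3 := by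
    apply mul_le_mul_of_nonneg_right _ (by positivity)
    nlinarith [sq_nonneg η]
  have hn3 : (0 : ℝ) ≤ η * (n : ℝ) ^ 3 := by positivity
  linarith

/-- the final form -/
theorem robust2 {η : ℝ} (hη : 0 < η) :
    ∃ ε : ℝ, 0 < ε ∧ ∃ n0 : ℕ, ∀ n, n0 ≤ n → ∀ T : Finset (Finset (Fin n)),
      (∀ e ∈ T, e.card = 3) → Covers T → ∀ c : Fin n → Fin n → Bool, (∀ x y, c x y = c y x) →
      ((bad2 T c).card : ℝ) ≤ ε * (n : ℝ) ^ 3 →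
      (∀ s, (n : ℝ) * (n - 1) / 10 ≤ (BB (wS c s) : ℝ)) →
      (4 / 9 - η) * (n.choose 3 : ℝ) ≤ (T.card : ℝ) := by
  rcases le_or_gt η (4 / 9) with hη1 | hη1
  · obtain ⟨ε, hε, n0, hmain⟩ := asym2 hη hη1
    refine ⟨ε, hε, n0, fun n hn T h3 hT c hs hb hc => ?_⟩
    have h1 := hmain n hn T h3 hT c hs hb hc
    have h5 : 6 * ((n.choose 3 : ℕ) : ℝ) ≤ (n : ℝ) ^ 3 := by
      have h6 := Pool.Agent.R810.TC.c3 n
      have h7 : 6 * ((n.choose 3 : ℕ) : ℝ) = (n : ℝ) * ((n : ℝ) - 1) * ((n : ℝ) - 2) := by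
        exact_mod_cast h6
      rw [h7]
      rcases Nat.eq_zero_or_pos n with h8 | h8
      · subst h8
        norm_num
      · have h9 : (1 : ℝ) ≤ n := by exact_mod_cast h8
        nlinarith
    have h6 := mul_le_mul_of_nonneg_left h5 (by linarith : 0 ≤ 4 / 9 - η)
    linarith
  · refine ⟨1, one_pos, 0, fun n _ T _ _ c _ _ _ => ?_⟩
    have hT0 : (0 : ℝ) ≤ (T.card : ℝ) := Nat.cast_nonneg _
    have hC0 : (0 : ℝ) ≤ (n.choose 3 : ℝ) := Nat.cast_nonneg _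
    have : (4 / 9 - η) * (n.choose 3 : ℝ) ≤ 0 :=
      mul_nonpos_of_nonpos_of_nonneg (by linarith) hC0
    linarith

end Pool.Agent.R810.TT
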