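import Pool.Agent.R810.TC.Samp

/-! The variance of the number of pairs of a colour in a random sample. -/

set_option autoImplicit false
open Finset

namespace Pool.Agent.R810.TT

open Pool.Agent.R810.TC (sum3')

variable {I : Type*} [Fintype I] [DecidableEq I] {V : Type*} [Fintype V] [DecidableEq V]

theorem prod4 {i j l p : I} (hij : i ≠ j) (hil : i ≠ l) (hip : i ≠ p) (hjl : j ≠ l) (hjp : j ≠ p)
    (hlp : l ≠ p) (d : ℕ) :
    ∏ m : I, (if m = i then 1 else if m = j then 1 else if m = l then 1 else if m = p then 1 else d) =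
      d ^ (Fintype.card I - 4) := by
  have m1 : j ∈ univ.erase i := mem_erase.2 ⟨hij.symm, mem_univ j⟩
  have m2 : l ∈ (univ.erase i).erase j := mem_erase.2 ⟨hjl.symm, mem_erase.2 ⟨hil.symm, mem_univ l⟩⟩
  have m3 : p ∈ ((univ.erase i).erase j).erase l :=
    mem_erase.2 ⟨hlp.symm, mem_erase.2 ⟨hjp.symm, mem_erase.2 ⟨hip.symm, mem_univ p⟩⟩⟩
  rw [← mul_prod_erase univ _ (mem_univ i), ← mul_prod_erase (univ.erase i) _ m1,
    ← mul_prod_erase ((univ.erase i).erase j) _ m2,
    ← mul_prod_erase (((univ.erase i).erase j).erase l) _ m3]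
  rw [if_pos rfl, if_neg hij.symm, if_pos rfl, if_neg hil.symm, if_neg hjl.symm, if_pos rfl,
    if_neg hip.symm, if_neg hjp.symm, if_neg hlp.symm, if_pos rfl]
  have e : ∀ m ∈ (((univ.erase i).erase j).erase l).erase p,
      (if m = i then 1 else if m = j then 1 else if m = l then 1 else if m = p then 1 else d) = d := by
    intro m hm
    simp only [mem_erase, mem_univ, and_true] at hm
    rw [if_neg hm.2.2.2, if_neg hm.2.2.1, if_neg hm.2.1, if_neg hm.1]
  rw [prod_congr rfl e, prod_const, card_erase_of_mem m3, card_erase_of_mem m2, card_erase_of_mem m1,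
    card_erase_of_mem (mem_univ i), card_univ, Nat.sub_sub, Nat.sub_sub, Nat.sub_sub]
  ring

theorem card4 {i j l p : I} (hij : i ≠ j) (hil : i ≠ l) (hip : i ≠ p) (hjl : j ≠ l) (hjp : j ≠ p)
    (hlp : l ≠ p) (x y z t : V) :
    (univ.filter fun f : I → V => f i = x ∧ f j = y ∧ f l = z ∧ f p = t).card =
      Fintype.card V ^ (Fintype.card I - 4) := by
  have e : (univ.filter fun f : I → V => f i = x ∧ f j = y ∧ f l = z ∧ f p = t) =
      Fintype.piFinset fun m : I =>
        if m = i then ({x} : Finset V) else if m = j then {y} else if m = l then {z} else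
          if m = p then {t} else univ := by
    ext f
    simp only [mem_filter, mem_univ, true_and, Fintype.mem_piFinset]
    constructor
    · rintro ⟨h1, h2, h3, h4⟩ m
      split_ifs with e1 e2 e3 e4
      · rw [e1, h1]; exact mem_singleton_self _
      · rw [e2, h2]; exact mem_singleton_self _
      · rw [e3, h3]; exact mem_singleton_self _
      · rw [e4, h4]; exact mem_singleton_self _
      · exact mem_univ _
    · intro h
      refine ⟨?_, ?_, ?_, ?_⟩
      · have := h i
        rwa [if_pos rfl, mem_singleton] at this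
      · have := h j
        rwa [if_neg hij.symm, if_pos rfl, mem_singleton] at this
      · have := h l
        rwa [if_neg hil.symm, if_neg hjl.symm, if_pos rfl, mem_singleton] at this
      · have := h p
        rwa [if_neg hip.symm, if_neg hjp.symm, if_neg hlp.symm, if_pos rfl, mem_singleton] at this
  rw [e, Fintype.card_piFinset]
  rw [← prod4 hij hil hip hjl hjp hlp (Fintype.card V)]
  refine prod_congr rfl fun m _ => ?_
  split_ifs <;> simp

/-- sums over maps of functions of four values -/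
theorem sum4 {i j l p : I} (hij : i ≠ j) (hil : i ≠ l) (hip : i ≠ p) (hjl : j ≠ l) (hjp : j ≠ p)
    (hlp : l ≠ p) (F : V → V → V → V → ℤ) :
    ∑ f : I → V, F (f i) (f j) (f l) (f p) =
      (Fintype.card V : ℤ) ^ (Fintype.card I - 4) * ∑ x, ∑ y, ∑ z, ∑ t, F x y z t := by
  have h1 := sum_fiberwise_of_maps_to (s := (univ : Finset (I → V)))
    (t := (univ : Finset (V × V × V × V))) (g := fun f => (f i, f j, f l, f p))
    (fun x _ => mem_univ _) (fun f => F (f i) (f j) (f l) (f p))
  rw [← h1, Fintype.sum_prod_type, mul_sum]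
  refine sum_congr rfl fun x _ => ?_
  rw [Fintype.sum_prod_type, mul_sum]
  refine sum_congr rfl fun y _ => ?_
  rw [Fintype.sum_prod_type, mul_sum]
  refine sum_congr rfl fun z _ => ?_
  rw [mul_sum]
  refine sum_congr rfl fun t _ => ?_
  have e : ∀ f ∈ univ.filter (fun f : I → V => (f i, f j, f l, f p) = (x, y, z, t)),
      F (f i) (f j) (f l) (f p) = F x y z t := by
    intro f hf
    have h2 := (mem_filter.1 hf).2
    simp only [Prod.mk.injEq] at h2
    rw [h2.1, h2.2.1, h2.2.2.1, h2.2.2.2]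
  rw [sum_congr rfl e, sum_const, nsmul_eq_mul]
  congr 1
  have h3 := card4 hij hil hip hjl hjp hlp x y z t
  have h4 : (univ.filter fun f : I → V => (f i, f j, f l, f p) = (x, y, z, t)) =
      univ.filter fun f : I → V => f i = x ∧ f j = y ∧ f l = z ∧ f p = t := by
    refine filter_congr fun f _ => ?_
    simp
  rw [h4, h3]
  push_cast
  ring

/-- the term of a pair of indices -/
def wt (w : V → V → ℤ) (f : I → V) (i j : I) : ℤ := if i ≠ j then w (f i) (f j) else 0

/-- the sum over all pairs of indices -/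
def XX (w : V → V → ℤ) (f : I → V) : ℤ := ∑ i, ∑ j, wt w f i j

/-- the sum over all pairs of points -/
def BB (w : V → V → ℤ) : ℤ := ∑ x, ∑ y, w x y

variable {w : V → V → ℤ}

theorem sum_one (hk : 3 ≤ Fintype.card I) {i j : I} (hij : i ≠ j) :
    ∑ f : I → V, w (f i) (f j) =
      (Fintype.card V : ℤ) ^ (Fintype.card I - 3) * (Fintype.card V * BB w) := by
  obtain ⟨l, hil, hjl⟩ : ∃ l, i ≠ l ∧ j ≠ l := by
    have hc : ((univ.erase i).erase j).card = Fintype.card I - 1 - 1 := by
      rw [card_erase_of_mem (mem_erase.2 ⟨hij.symm, mem_univ _⟩),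
        card_erase_of_mem (mem_univ _), card_univ]
    obtain ⟨l, hl⟩ : ((univ.erase i).erase j).Nonempty := card_pos.1 (by omega)
    exact ⟨l, (mem_erase.1 (mem_erase.1 hl).2).1.symm, (mem_erase.1 hl).1.symm⟩
  have := sum3' hij hil hjl (fun x y (_ : V) => w x y)
  rw [this]
  congr 1
  unfold BB
  simp only [sum_const, card_univ, nsmul_eq_mul, mul_sum]

theorem S1 (hk : 3 ≤ Fintype.card I) : ∑ f : I → V, XX w f =
    (Fintype.card I : ℤ) * (Fintype.card I - 1) *
      ((Fintype.card V : ℤ) ^ (Fintype.card I - 3) * (Fintype.card V * BB w)) := by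
  unfold XX
  rw [sum_comm]
  have h1 : ∀ i : I, ∑ f : I → V, ∑ j, wt w f i j = ((Fintype.card I : ℤ) - 1) *
      ((Fintype.card V : ℤ) ^ (Fintype.card I - 3) * (Fintype.card V * BB w)) := by
    intro i
    rw [sum_comm]
    have h2 : ∀ j : I, ∑ f : I → V, wt w f i j = (1 - if i = j then 1 else 0) *
        ((Fintype.card V : ℤ) ^ (Fintype.card I - 3) * (Fintype.card V * BB w)) := by
      intro j
      unfold wt
      by_cases e : i = j
      · simp [e]
      · rw [if_neg e, sub_zero, one_mul, ← sum_one hk e]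
        refine sum_congr rfl fun f _ => ?_
        rw [if_pos e]
    rw [sum_congr rfl fun j _ => h2 j, ← sum_mul, sum_sub_distrib, sum_const, card_univ,
      nsmul_eq_mul, mul_one, sum_ite_eq univ i, if_pos (mem_univ _)]
  rw [sum_congr rfl fun i _ => h1 i, sum_const, card_univ, nsmul_eq_mul]
  ring

theorem S2 (hw0 : ∀ x y, 0 ≤ w x y) (hw1 : ∀ x y, w x y ≤ 1) :
    ∑ f : I → V, XX w f ^ 2 ≤ (Fintype.card I : ℤ) ^ 4 *
      ((Fintype.card V : ℤ) ^ (Fintype.card I - 4) * BB w ^ 2) +
      4 * (Fintype.card I : ℤ) ^ 3 * (Fintype.card V : ℤ) ^ (Fintype.card I) := by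
  have hB0 : 0 ≤ BB w := sum_nonneg fun x _ => sum_nonneg fun y _ => hw0 x y
  have wt0 : ∀ (f : I → V) i j, 0 ≤ wt w f i j := by
    intro f i j; unfold wt; split_ifs
    · exact hw0 _ _
    · exact le_refl _
  have wt1 : ∀ (f : I → V) i j, wt w f i j ≤ 1 := by
    intro f i j; unfold wt; split_ifs
    · exact hw1 _ _
    · norm_num
  have e1 : ∀ f : I → V, XX w f ^ 2 = ∑ i, ∑ j, ∑ l, ∑ p, wt w f i j * wt w f l p := by
    intro f
    unfold XX
    rw [sq, sum_mul]
    refine sum_congr rfl fun i _ => ?_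
    rw [sum_mul]
    refine sum_congr rfl fun j _ => ?_
    rw [mul_sum]
    refine sum_congr rfl fun l _ => ?_
    rw [mul_sum]
  rw [sum_congr rfl fun f _ => e1 f]
  have e2 : ∑ f : I → V, ∑ i, ∑ j, ∑ l, ∑ p, wt w f i j * wt w f l p =
      ∑ i, ∑ j, ∑ l, ∑ p, ∑ f : I → V, wt w f i j * wt w f l p := by
    rw [sum_comm]
    refine sum_congr rfl fun i _ => ?_
    rw [sum_comm]
    refine sum_congr rfl fun j _ => ?_
    rw [sum_comm]
    refine sum_congr rfl fun l _ => ?_
    rw [sum_comm]
  rw [e2]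
  set C : ℤ := (Fintype.card V : ℤ) ^ (Fintype.card I - 4) * BB w ^ 2 with hC
  set Nk : ℤ := (Fintype.card V : ℤ) ^ (Fintype.card I) with hNk
  have hC0 : 0 ≤ C := by positivity
  have hNk0 : 0 ≤ Nk := by positivity
  have hQ : ∀ i j l p : I, ∑ f : I → V, wt w f i j * wt w f l p ≤
      C + Nk * ((if i = l then 1 else 0) + (if i = p then 1 else 0) + (if j = l then 1 else 0) +
        (if j = p then 1 else 0)) := by
    intro i j l p
    have hle : ∑ f : I → V, wt w f i j * wt w f l p ≤ Nk := by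
      have : ∑ f : I → V, wt w f i j * wt w f l p ≤ ∑ f : I → V, (1 : ℤ) :=
        sum_le_sum fun f _ => by
          have := mul_le_mul (wt1 f i j) (wt1 f l p) (wt0 f l p) (by norm_num)
          linarith
      refine this.trans (le_of_eq ?_)
      rw [sum_const, card_univ, Fintype.card_fun, nsmul_eq_mul, mul_one, hNk]
      push_cast
      rfl
    have z1 : (0 : ℤ) ≤ (if i = l then 1 else 0) := by split_ifs <;> norm_num
    have z2 : (0 : ℤ) ≤ (if i = p then 1 else 0) := by split_ifs <;> norm_num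
    have z3 : (0 : ℤ) ≤ (if j = l then 1 else 0) := by split_ifs <;> norm_num
    have z4 : (0 : ℤ) ≤ (if j = p then 1 else 0) := by split_ifs <;> norm_num
    by_cases hd : i ≠ l ∧ i ≠ p ∧ j ≠ l ∧ j ≠ p
    · rw [if_neg hd.1, if_neg hd.2.1, if_neg hd.2.2.1, if_neg hd.2.2.2]
      simp only [add_zero, mul_zero]
      by_cases hij : i = j
      · have : ∑ f : I → V, wt w f i j * wt w f l p = 0 := sum_eq_zero fun f _ => by
          unfold wt; rw [hij]; simp
        rw [this]; exact hC0
      by_cases hlp : l = p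
      · have : ∑ f : I → V, wt w f i j * wt w f l p = 0 := sum_eq_zero fun f _ => by
          unfold wt; rw [hlp]; simp
        rw [this]; exact hC0
      have h4 := sum4 (V := V) hij hd.1 hd.2.1 hd.2.2.1 hd.2.2.2 hlp
        (fun x y z t => w x y * w z t)
      have h5 : ∑ f : I → V, wt w f i j * wt w f l p =
          ∑ f : I → V, w (f i) (f j) * w (f l) (f p) := by
        refine sum_congr rfl fun f _ => ?_
        unfold wt
        rw [if_pos hij, if_pos hlp]
      rw [h5, h4, hC]
      apply le_of_eq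
      congr 1
      unfold BB
      rw [sq, sum_mul]
      refine sum_congr rfl fun x _ => ?_
      rw [sum_mul]
      refine sum_congr rfl fun y _ => ?_
      rw [mul_sum]
      refine sum_congr rfl fun z _ => ?_
      rw [mul_sum]
    · have h1 : (1 : ℤ) ≤ (if i = l then 1 else 0) + (if i = p then 1 else 0) +
          (if j = l then 1 else 0) + (if j = p then 1 else 0) := by
        by_cases a1 : i = l
        · rw [if_pos a1]; linarith
        by_cases a2 : i = p
        · rw [if_pos a2]; linarith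
        by_cases a3 : j = l
        · rw [if_pos a3]; linarith
        by_cases a4 : j = p
        · rw [if_pos a4]; linarith
        exact absurd ⟨a1, a2, a3, a4⟩ hd
      have h2 := mul_le_mul_of_nonneg_left h1 hNk0
      linarith
  refine (sum_le_sum fun i _ => sum_le_sum fun j _ => sum_le_sum fun l _ =>
    sum_le_sum fun p _ => hQ i j l p).trans (le_of_eq ?_)
  simp only [mul_add, sum_add_distrib, sum_const, card_univ, nsmul_eq_mul, mul_ite, mul_one,
    mul_zero, sum_ite_eq, mem_univ, if_true]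
  ring

/-- the variance -/
theorem variance (hk : 4 ≤ Fintype.card I) (hV : 0 < Fintype.card V) (hw0 : ∀ x y, 0 ≤ w x y)
    (hw1 : ∀ x y, w x y ≤ 1) {b : ℝ} (hb : (BB w : ℝ) = b * (Fintype.card V : ℝ) ^ 2) :
    ∑ f : I → V, ((XX w f : ℝ) - (Fintype.card I : ℝ) * (Fintype.card I - 1) * b) ^ 2 ≤
      6 * (Fintype.card I : ℝ) ^ 3 * (Fintype.card V : ℝ) ^ (Fintype.card I) := by
  set k : ℝ := (Fintype.card I : ℝ) with hkdef
  set n : ℝ := (Fintype.card V : ℝ) with hn
  have hk1 : (4 : ℝ) ≤ k := by rw [hkdef]; exact_mod_cast hk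
  have hnpos : 0 < n := by rw [hn]; exact_mod_cast hV
  have hB1 : (BB w : ℝ) ≤ n ^ 2 := by
    have : BB w ≤ ∑ x : V, ∑ y : V, (1 : ℤ) := sum_le_sum fun x _ => sum_le_sum fun y _ => hw1 x y
    have h2 : (∑ x : V, ∑ y : V, (1 : ℤ)) = (Fintype.card V : ℤ) * Fintype.card V := by simp
    rw [h2] at this
    have h3 : (BB w : ℝ) ≤ ((Fintype.card V : ℤ) * Fintype.card V : ℤ) := by exact_mod_cast this
    push_cast at h3
    rw [hn]; linarith [h3, sq (Fintype.card V : ℝ)]
  have hB0 : (0 : ℝ) ≤ BB w := by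
    have : 0 ≤ BB w := sum_nonneg fun x _ => sum_nonneg fun y _ => hw0 x y
    exact_mod_cast this
  have hn2 : 0 < n ^ 2 := by positivity
  have hb0 : 0 ≤ b := by
    by_contra hcon
    push Not at hcon
    have := mul_neg_of_neg_of_pos hcon hn2
    linarith
  have hb1 : b ≤ 1 := by
    have : b * n ^ 2 ≤ 1 * n ^ 2 := by linarith
    exact le_of_mul_le_mul_right this hn2
  set μ : ℝ := k * (k - 1) * b with hμ
  have s1 := S1 (V := V) (w := w) (by omega : 3 ≤ Fintype.card I)
  have s2 := S2 (I := I) (V := V) hw0 hw1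
  have s1R : ∑ f : I → V, (XX w f : ℝ) = μ * n ^ (Fintype.card I) := by
    have h1 : ((∑ f : I → V, XX w f : ℤ) : ℝ) = _ := congrArg (fun t : ℤ => (t : ℝ)) s1
    push_cast at h1
    rw [h1, hb, hμ]
    obtain ⟨q, hq⟩ : ∃ q, Fintype.card I = q + 4 := ⟨Fintype.card I - 4, by omega⟩
    rw [hq]
    have : q + 4 - 3 = q + 1 := by omega
    rw [this, hkdef, hq]
    push_cast
    ring
  have s2R : ∑ f : I → V, (XX w f : ℝ) ^ 2 ≤ (k ^ 4 * b ^ 2 + 4 * k ^ 3) * n ^ (Fintype.card I) := by
    have h1 : ((∑ f : I → V, XX w f ^ 2 : ℤ) : ℝ) ≤ _ := Int.cast_le.2 s2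
    push_cast at h1
    refine h1.trans (le_of_eq ?_)
    rw [hb]
    obtain ⟨q, hq⟩ : ∃ q, Fintype.card I = q + 4 := ⟨Fintype.card I - 4, by omega⟩
    rw [hq]
    have : q + 4 - 4 = q := by omega
    rw [this, hkdef, hq]
    push_cast
    ring
  have hexp : ∑ f : I → V, ((XX w f : ℝ) - μ) ^ 2 = ∑ f : I → V, (XX w f : ℝ) ^ 2 -
      2 * μ * ∑ f : I → V, (XX w f : ℝ) + μ ^ 2 * n ^ (Fintype.card I) := by
    have : ∀ f : I → V, ((XX w f : ℝ) - μ) ^ 2 = (XX w f : ℝ) ^ 2 - 2 * μ * (XX w f : ℝ) + μ ^ 2 := by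
      intro f; ring
    rw [sum_congr rfl fun f _ => this f, sum_add_distrib, sum_sub_distrib, ← mul_sum, sum_const,
      card_univ, Fintype.card_fun, nsmul_eq_mul]
    push_cast
    ring
  rw [hexp, s1R]
  have hP : 0 ≤ n ^ (Fintype.card I) := by positivity
  have hfin : (k ^ 4 * b ^ 2 + 4 * k ^ 3) - μ ^ 2 ≤ 6 * k ^ 3 := by
    rw [hμ]
    have e : (k ^ 4 * b ^ 2 + 4 * k ^ 3) - (k * (k - 1) * b) ^ 2 =
        4 * k ^ 3 + (2 * k ^ 3 - k ^ 2) * b ^ 2 := by ring
    rw [e]
    have hb2 : b ^ 2 ≤ 1 := by nlinarith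
    have hk3 : 0 ≤ 2 * k ^ 3 - k ^ 2 := by
      have : 0 ≤ k ^ 2 * (2 * k - 1) := by
        apply mul_nonneg (sq_nonneg k)
        linarith
      linarith [this, show k ^ 2 * (2 * k - 1) = 2 * k ^ 3 - k ^ 2 by ring]
    have := mul_le_mul_of_nonneg_left hb2 hk3
    nlinarith [sq_nonneg k]
  have := mul_le_mul_of_nonneg_right hfin hP
  linarith

end Pool.Agent.R810.TT
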