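import Pool.Agent.R810.TC.Two

/-! The threshold structure of colourings with two colours. -/

set_option autoImplicit false
open Finset

namespace Pool.Agent.R810.TT

open Pool.Agent.R810.TC (Good mon prs mon_insert prs_insert prs_add dominating)

variable {V : Type*} [DecidableEq V]

/-- lower bound -/
def G1 (α β a : ℤ) : ℤ := (α + β) ^ 3 - 3 * (β - a) * α ^ 2 - (max (β - a) 0) ^ 3

/-- lower bound -/
def G2 (α β a : ℤ) : ℤ := (α + β) ^ 3 - 3 * (β - a) ^ 2 * α - α ^ 3

theorem G1_red {α β a N : ℤ} (hα : 0 ≤ α) (hβ : 0 ≤ β) (hN : |a| + (α + β + 1) ≤ N) :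
    G1 (α + 1) β a ≤ G1 α β (a + 1) + 6 * a * (α + β) + 7 * N := by
  have ha : a ≤ N - (α + β + 1) := by linarith [le_abs_self a]
  have ha' : -a ≤ N - (α + β + 1) := by linarith [neg_le_abs a]
  unfold G1
  rcases le_or_gt (β - a) 0 with h | h
  · rw [max_eq_right h, max_eq_right (by linarith : β - (a + 1) ≤ 0)]
    have e : (α + 1 + β) ^ 3 - 3 * (β - a) * (α + 1) ^ 2 - 0 ^ 3 -
        ((α + β) ^ 3 - 3 * (β - (a + 1)) * α ^ 2 - 0 ^ 3 + 6 * a * (α + β)) =
        3 * (β * (β - 2 * a)) + 3 * α + 3 * a + 1 := by ring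
    have h2 : β * (β - 2 * a) ≤ 0 := mul_nonpos_of_nonneg_of_nonpos hβ (by linarith)
    linarith
  · rw [max_eq_left h.le, max_eq_left (by linarith [Int.add_one_le_iff.2 h] : 0 ≤ β - (a + 1))]
    have e : (α + 1 + β) ^ 3 - 3 * (β - a) * (α + 1) ^ 2 - (β - a) ^ 3 -
        ((α + β) ^ 3 - 3 * (β - (a + 1)) * α ^ 2 - (β - (a + 1)) ^ 3 + 6 * a * (α + β)) =
        -3 * a ^ 2 + 3 * (α + β) := by ring
    linarith [sq_nonneg a]

theorem G1_blue {α β a N : ℤ} (hα : 0 ≤ α) (hβ : 0 ≤ β) (hN : |a| + (α + β + 1) ≤ N) :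
    G1 α (β + 1) a ≤ G1 α β (a - 1) + 3 * ((α + β) * (α + β - 1)) + 7 * N := by
  have ha : 0 ≤ |a| := abs_nonneg a
  unfold G1
  have e0 : β - (a - 1) = β + 1 - a := by ring
  rw [e0]
  have e : (α + (β + 1)) ^ 3 - 3 * (β + 1 - a) * α ^ 2 - (max (β + 1 - a) 0) ^ 3 -
      ((α + β) ^ 3 - 3 * (β + 1 - a) * α ^ 2 - (max (β + 1 - a) 0) ^ 3 +
        3 * ((α + β) * (α + β - 1))) = 6 * (α + β) + 1 := by ring
  linarith

theorem G2_red {α β a N : ℤ} (hα : 0 ≤ α) (hβ : 0 ≤ β) (hN : |a| + (α + β + 1) ≤ N) :
    G2 (α + 1) β a ≤ G2 α β (a + 1) + 6 * a * (α + β) + 7 * N := by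
  have ha : 0 ≤ |a| := abs_nonneg a
  unfold G2
  have e : (α + 1 + β) ^ 3 - 3 * (β - a) ^ 2 * (α + 1) - (α + 1) ^ 3 -
      ((α + β) ^ 3 - 3 * (β - (a + 1)) ^ 2 * α - α ^ 3 + 6 * a * (α + β)) =
      -3 * a ^ 2 + 3 * (α + β) := by ring
  linarith [sq_nonneg a]

theorem G2_blue {α β a N : ℤ} (hα : 0 ≤ α) (hβ : 0 ≤ β) (hN : |a| + (α + β + 1) ≤ N) :
    G2 α (β + 1) a ≤ G2 α β (a - 1) + 3 * ((α + β) * (α + β - 1)) + 7 * N := by
  have ha : 0 ≤ |a| := abs_nonneg a
  unfold G2
  have e0 : β - (a - 1) = β + 1 - a := by ring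
  rw [e0]
  have e : (α + (β + 1)) ^ 3 - 3 * (β + 1 - a) ^ 2 * α - α ^ 3 -
      ((α + β) ^ 3 - 3 * (β + 1 - a) ^ 2 * α - α ^ 3 +
        3 * ((α + β) * (α + β - 1))) = 6 * (α + β) + 1 := by ring
  linarith

/-- the structure -/
theorem str {c : V → V → Bool} (h : Good c) (U : Finset V) : ∃ A B : Finset V,
    A ∪ B = U ∧ Disjoint A B ∧ (∀ x ∈ A, ∀ y ∈ A, x ≠ y → c x y = true) ∧
    (∀ x ∈ B, ∀ y ∈ B, x ≠ y → c x y = false) ∧
    ∀ a N : ℤ, |a| + U.card ≤ N →
      G1 A.card B.card a ≤ mon c U + 3 * a * prs c U true + 7 * N * U.card ∧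
      G2 A.card B.card a ≤ mon c U + 3 * a * prs c U true + 7 * N * U.card := by
  induction hn : U.card generalizing U with
  | zero =>
    have : U = ∅ := card_eq_zero.1 hn
    subst this
    refine ⟨∅, ∅, by simp, by simp, by simp, by simp, ?_⟩
    intro a N _
    have h1 : 0 ≤ (max (0 - a) 0) ^ 3 := pow_nonneg (le_max_right _ _) 3
    simp only [G1, G2, card_empty, mon, prs, sum_empty, Nat.cast_zero, mul_zero, add_zero]
    constructor
    · linarith
    · norm_num
  | succ m ih =>
    obtain ⟨v, hv, s, hs⟩ := dominating h (card_pos.1 (by omega : 0 < U.card))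
    have hins : U = insert v (U.erase v) := (insert_erase hv).symm
    have hc : (U.erase v).card = m := by
      rw [card_erase_of_mem hv, hn]
      rfl
    have hd : ∀ y ∈ U.erase v, c v y = s := fun y hy => hs y (mem_of_mem_erase hy) (ne_of_mem_erase hy)
    have hvn : v ∉ U.erase v := notMem_erase v U
    obtain ⟨A, B, hAB, hdis, hA, hB, hG⟩ := ih (U.erase v) hc
    have m1 := mon_insert h.symm hvn hd
    have m2 := prs_insert h.symm hvn hd true
    have m4 := prs_add c (U.erase v) true
    rw [← hins] at m1 m2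
    rw [hc] at m2 m4
    have hvA : v ∉ A := fun hh => hvn (by rw [← hAB]; exact mem_union_left _ hh)
    have hvB : v ∉ B := fun hh => hvn (by rw [← hAB]; exact mem_union_right _ hh)
    have hcard : (A.card : ℤ) + B.card = m := by
      have := card_union_of_disjoint hdis
      rw [hAB, hc] at this
      exact_mod_cast this.symm
    have hA0 : (0 : ℤ) ≤ A.card := Int.natCast_nonneg _
    have hB0 : (0 : ℤ) ≤ B.card := Int.natCast_nonneg _
    cases s
    · -- blue
      refine ⟨A, insert v B, ?_, ?_, hA, ?_, ?_⟩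
      · rw [union_insert, hAB, insert_erase hv]
      · rw [disjoint_insert_right]
        exact ⟨hvA, hdis⟩
      · intro x hx y hy hxy
        rw [mem_insert] at hx hy
        rcases hx with rfl | hx
        · rcases hy with rfl | hy
          · exact absurd rfl hxy
          · exact hd y (by rw [← hAB]; exact mem_union_right _ hy)
        · rcases hy with rfl | hy
          · rw [h.symm]
            exact hd x (by rw [← hAB]; exact mem_union_right _ hx)
          · exact hB x hx y hy hxy
      · intro a N hN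
        rw [card_insert_of_notMem hvB]
        push_cast at hN ⊢
        have hN' : |a - 1| + (m : ℤ) ≤ N := by
          have : |a - 1| ≤ |a| + 1 := by
            have := abs_sub a 1
            simpa using this
          linarith
        obtain ⟨g1, g2⟩ := hG (a - 1) N hN'
        have hN2 : |a| + ((A.card : ℤ) + B.card + 1) ≤ N := by rw [hcard]; linarith
        have s1 := G1_blue hA0 hB0 hN2
        have s2 := G2_blue hA0 hB0 hN2
        rw [hcard] at s1 s2
        simp only [Bool.not_true] at m4
        simp only [Bool.true_eq_false, if_false, mul_zero, add_zero] at m2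
        rw [m1, m2]
        have e5 : prs c (U.erase v) false = (m : ℤ) * (m - 1) - prs c (U.erase v) true := by linarith
        rw [e5]
        constructor
        · refine s1.trans ?_
          linarith
        · refine s2.trans ?_
          linarith
    · -- red
      refine ⟨insert v A, B, ?_, ?_, ?_, hB, ?_⟩
      · rw [insert_union, hAB, insert_erase hv]
      · rw [disjoint_insert_left]
        exact ⟨hvB, hdis⟩
      · intro x hx y hy hxy
        rw [mem_insert] at hx hy
        rcases hx with rfl | hx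
        · rcases hy with rfl | hy
          · exact absurd rfl hxy
          · exact hd y (by rw [← hAB]; exact mem_union_left _ hy)
        · rcases hy with rfl | hy
          · rw [h.symm]
            exact hd x (by rw [← hAB]; exact mem_union_left _ hx)
          · exact hA x hx y hy hxy
      · intro a N hN
        rw [card_insert_of_notMem hvA]
        push_cast at hN ⊢
        have hN' : |a + 1| + (m : ℤ) ≤ N := by
          have : |a + 1| ≤ |a| + 1 := by
            have := abs_add_le a 1
            simpa using this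
          linarith
        obtain ⟨g1, g2⟩ := hG (a + 1) N hN'
        have hN2 : |a| + ((A.card : ℤ) + B.card + 1) ≤ N := by rw [hcard]; linarith
        have s1 := G1_red hA0 hB0 hN2
        have s2 := G2_red hA0 hB0 hN2
        rw [hcard] at s1 s2
        simp only [if_true] at m2
        rw [m1, m2]
        constructor
        · refine s1.trans ?_
          linarith
        · refine s2.trans ?_
          linarith

end Pool.Agent.R810.TT
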