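import Pool.Agent.R810.TC.Core
import Pool.Agent.R810.TT.Str

/-! Counting triples. -/

set_option autoImplicit false
open Finset

namespace Pool.Agent.R810.TT

open Pool.Agent.R810.TC (Good mon prs Col)

variable {V : Type*} [DecidableEq V]

/-- a covering with a colouring -/
structure Cv (E : V → V → V → Prop) (c : V → V → Bool) : Prop where
  col : Col E c
  s12 : ∀ x y z, E x y z → E y x z
  s23 : ∀ x y z, E x y z → E x z y

open Classical in
/-- indicator -/
noncomputable def ee (E : V → V → V → Prop) (x y z : V) : ℤ :=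
  if x ≠ y ∧ x ≠ z ∧ y ≠ z ∧ E x y z then 1 else 0

open Classical in
/-- indicator of the missing pairs at `x` -/
noncomputable def uu (E : V → V → V → Prop) (x k l : V) : ℤ :=
  if k ≠ l ∧ ¬ E x k l then 1 else 0

/-- sums -/
noncomputable def SS (E : V → V → V → Prop) (X Y Z : Finset V) : ℤ :=
  ∑ x ∈ X, ∑ y ∈ Y, ∑ z ∈ Z, ee E x y z

/-- the number of missing pairs at `x` -/
noncomputable def ms (E : V → V → V → Prop) (F : Finset V) (x : V) : ℤ :=
  ∑ k ∈ F, ∑ l ∈ F, uu E x k l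

variable {E : V → V → V → Prop} {c : V → V → Bool}

theorem ee_nonneg (x y z : V) : 0 ≤ ee E x y z := by
  unfold ee; split_ifs <;> norm_num

theorem ee_12 (h : Cv E c) (x y z : V) : ee E x y z = ee E y x z := by
  unfold ee
  congr 1
  apply propext
  constructor
  · rintro ⟨h1, h2, h3, h4⟩
    exact ⟨h1.symm, h3, h2, h.s12 _ _ _ h4⟩
  · rintro ⟨h1, h2, h3, h4⟩
    exact ⟨h1.symm, h3, h2, h.s12 _ _ _ h4⟩

theorem ee_23 (h : Cv E c) (x y z : V) : ee E x y z = ee E x z y := by
  unfold ee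
  congr 1
  apply propext
  constructor
  · rintro ⟨h1, h2, h3, h4⟩
    exact ⟨h2, h1, h3.symm, h.s23 _ _ _ h4⟩
  · rintro ⟨h1, h2, h3, h4⟩
    exact ⟨h2, h1, h3.symm, h.s23 _ _ _ h4⟩

theorem SS_12 (h : Cv E c) (X Y Z : Finset V) : SS E X Y Z = SS E Y X Z := by
  unfold SS
  rw [sum_comm]
  exact sum_congr rfl fun y _ => sum_congr rfl fun x _ => sum_congr rfl fun z _ => ee_12 h _ _ _

theorem SS_23 (h : Cv E c) (X Y Z : Finset V) : SS E X Y Z = SS E X Z Y := by
  unfold SS
  refine sum_congr rfl fun x _ => ?_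
  rw [sum_comm]
  exact sum_congr rfl fun z _ => sum_congr rfl fun y _ => ee_23 h _ _ _

theorem total [Fintype V] (h : Cv E c) (F : Finset V) : SS E univ univ univ =
    SS E Fᶜ Fᶜ Fᶜ + 3 * SS E Fᶜ Fᶜ F + 3 * SS E Fᶜ F F + SS E F F F := by
  have a1 : ∀ X Y : Finset V, SS E X Y univ = SS E X Y F + SS E X Y Fᶜ := by
    intro X Y
    unfold SS
    rw [← sum_add_distrib]
    refine sum_congr rfl fun x _ => ?_
    rw [← sum_add_distrib]
    exact sum_congr rfl fun y _ => (sum_add_sum_compl F _).symm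
  have a2 : ∀ X Z : Finset V, SS E X univ Z = SS E X F Z + SS E X Fᶜ Z := by
    intro X Z
    rw [SS_23 h, a1, SS_23 h X Z F, SS_23 h X Z Fᶜ]
  have a3 : ∀ Y Z : Finset V, SS E univ Y Z = SS E F Y Z + SS E Fᶜ Y Z := by
    intro Y Z
    rw [SS_12 h, a2, SS_12 h Y F Z, SS_12 h Y Fᶜ Z]
  rw [a1, a2, a2, a3, a3, a3, a3]
  have b1 : SS E F F Fᶜ = SS E Fᶜ F F := by rw [SS_23 h, SS_12 h]
  have b2 : SS E F Fᶜ F = SS E Fᶜ F F := by rw [SS_12 h]
  have b3 : SS E F Fᶜ Fᶜ = SS E Fᶜ Fᶜ F := by rw [SS_12 h, SS_23 h]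
  have b4 : SS E Fᶜ F Fᶜ = SS E Fᶜ Fᶜ F := by rw [SS_23 h]
  rw [b1, b2, b3, b4]
  ring

/-- Goodman's argument -/
theorem goodman (h : Cv E c) (F : Finset V) {x : V} (hx : x ∉ F) :
    2 * ms E F x ^ 2 - (F.card : ℤ) ^ 2 * ms E F x ≤ F.card * SS E F F F := by
  set u := uu E x with hu
  have hus : ∀ k l, u k l = u l k := by
    intro k l
    rw [hu]
    unfold uu
    congr 1
    apply propext
    constructor
    · rintro ⟨h1, h2⟩
      exact ⟨h1.symm, fun h3 => h2 (h.s23 _ _ _ h3)⟩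
    · rintro ⟨h1, h2⟩
      exact ⟨h1.symm, fun h3 => h2 (h.s23 _ _ _ h3)⟩
  have hu01 : ∀ k l, u k l = 0 ∨ u k l = 1 := by
    intro k l
    rw [hu]
    unfold uu
    split_ifs
    · exact Or.inr rfl
    · exact Or.inl rfl
  have h1 : ∑ k ∈ F, ∑ l ∈ F, ∑ j ∈ F, u k l * (u k j * u l j) ≤ SS E F F F := by
    unfold SS
    refine sum_le_sum fun k hk => sum_le_sum fun l hl => sum_le_sum fun j hj => ?_
    rcases hu01 k l with a | a
    · rw [a, zero_mul]; exact ee_nonneg _ _ _
    rcases hu01 k j with b | b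
    · rw [b, zero_mul, mul_zero]; exact ee_nonneg _ _ _
    rcases hu01 l j with d | d
    · rw [d, mul_zero, mul_zero]; exact ee_nonneg _ _ _
    rw [a, b, d]
    have g1 : k ≠ l ∧ ¬ E x k l := by
      by_contra hh
      rw [hu] at a
      unfold uu at a
      rw [if_neg hh] at a
      norm_num at a
    have g2 : k ≠ j ∧ ¬ E x k j := by
      by_contra hh
      rw [hu] at b
      unfold uu at b
      rw [if_neg hh] at b
      norm_num at b
    have g3 : l ≠ j ∧ ¬ E x l j := by
      by_contra hh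
      rw [hu] at d
      unfold uu at d
      rw [if_neg hh] at d
      norm_num at d
    have n1 : x ≠ k := fun e => hx (e ▸ hk)
    have n2 : x ≠ l := fun e => hx (e ▸ hl)
    have n3 : x ≠ j := fun e => hx (e ▸ hj)
    have hE : E k l j := by
      rcases h.col.four x k l j n1 n2 n3 g1.1 g2.1 g3.1 with e | e | e | e
      · exact absurd e g1.2
      · exact absurd e g2.2
      · exact absurd e g3.2
      · exact e
    unfold ee
    rw [if_pos ⟨g1.1, g2.1, g3.1, hE⟩]
    norm_num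
  set d : V → ℤ := fun k => ∑ j ∈ F, u k j with hd
  have h2 : ∑ k ∈ F, ∑ l ∈ F, u k l * (d k + d l - F.card) ≤
      ∑ k ∈ F, ∑ l ∈ F, ∑ j ∈ F, u k l * (u k j * u l j) := by
    refine sum_le_sum fun k _ => sum_le_sum fun l _ => ?_
    rw [← mul_sum]
    have h0 : 0 ≤ u k l := by rcases hu01 k l with a | a <;> rw [a]; norm_num
    refine mul_le_mul_of_nonneg_left ?_ h0
    have : d k + d l - F.card = ∑ j ∈ F, (u k j + u l j - 1) := by
      rw [sum_sub_distrib, sum_add_distrib, sum_const, nsmul_eq_mul, mul_one]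
    rw [this]
    refine sum_le_sum fun j _ => ?_
    rcases hu01 k j with a | a <;> rcases hu01 l j with b | b <;> rw [a, b] <;> norm_num
  have h3 : ∑ k ∈ F, ∑ l ∈ F, u k l * (d k + d l - F.card) =
      2 * ∑ k ∈ F, d k ^ 2 - F.card * ms E F x := by
    have e1 : ∑ k ∈ F, ∑ l ∈ F, u k l * d k = ∑ k ∈ F, d k ^ 2 := by
      refine sum_congr rfl fun k _ => ?_
      rw [← sum_mul, sq]
    have e2 : ∑ k ∈ F, ∑ l ∈ F, u k l * d l = ∑ k ∈ F, d k ^ 2 := by
      rw [sum_comm, ← e1]
      exact sum_congr rfl fun l _ => sum_congr rfl fun k _ => by rw [hus]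
    have e3 : ∑ k ∈ F, ∑ l ∈ F, u k l * (F.card : ℤ) = F.card * ms E F x := by
      unfold ms
      rw [mul_comm, sum_mul]
      exact sum_congr rfl fun k _ => (sum_mul _ _ _).symm
    have e4 : ∀ k l, u k l * (d k + d l - F.card) = u k l * d k + u k l * d l - u k l * F.card := by
      intro k l; ring
    simp only [e4, sum_sub_distrib, sum_add_distrib]
    rw [e1, e2, e3]
    ring
  have h4 : ms E F x ^ 2 ≤ F.card * ∑ k ∈ F, d k ^ 2 := by
    have := sq_sum_le_card_mul_sum_sq (s := F) (f := d)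
    exact this
  have hF0 : (0 : ℤ) ≤ F.card := Int.natCast_nonneg _
  have h5 : (F.card : ℤ) * (2 * ∑ k ∈ F, d k ^ 2 - F.card * ms E F x) ≤ F.card * SS E F F F :=
    mul_le_mul_of_nonneg_left (by linarith) hF0
  nlinarith

/-- de Caen's argument -/
theorem deCaen (h : Cv E c) (F : Finset V) :
    (F.card : ℤ) ^ 3 - 9 * (F.card : ℤ) ^ 2 ≤ 3 * SS E F F F := by
  classical
  set q : V → V → V → ℤ := fun x y z => if x ≠ y ∧ x ≠ z ∧ y ≠ z ∧ ¬ E x y z then 1 else 0 with hq
  have q01 : ∀ x y z, q x y z = 0 ∨ q x y z = 1 := by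
    intro x y z
    simp only [hq]
    split_ifs
    · exact Or.inr rfl
    · exact Or.inl rfl
  have q12 : ∀ x y z, q x y z = q y x z := by
    intro x y z
    simp only [hq]
    congr 1
    apply propext
    constructor
    · rintro ⟨h1, h2, h3, h4⟩
      exact ⟨h1.symm, h3, h2, fun e => h4 (h.s12 _ _ _ e)⟩
    · rintro ⟨h1, h2, h3, h4⟩
      exact ⟨h1.symm, h3, h2, fun e => h4 (h.s12 _ _ _ e)⟩
  have q23 : ∀ x y z, q x y z = q x z y := by
    intro x y z
    simp only [hq]
    congr 1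
    apply propext
    constructor
    · rintro ⟨h1, h2, h3, h4⟩
      exact ⟨h2, h1, h3.symm, fun e => h4 (h.s23 _ _ _ e)⟩
    · rintro ⟨h1, h2, h3, h4⟩
      exact ⟨h2, h1, h3.symm, fun e => h4 (h.s23 _ _ _ e)⟩
  set N := ∑ x ∈ F, ∑ y ∈ F, ∑ z ∈ F, q x y z with hN
  set D : V → V → ℤ := fun x y => ∑ z ∈ F, q x y z with hD
  set R := ∑ x ∈ F, ∑ y ∈ F, D x y ^ 2 with hR
  -- three sums
  have r1 : ∑ x ∈ F, ∑ y ∈ F, ∑ z ∈ F, q x y z * D x y = R := by
    refine sum_congr rfl fun x _ => sum_congr rfl fun y _ => ?_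
    rw [← sum_mul, sq]
  have r2 : ∑ x ∈ F, ∑ y ∈ F, ∑ z ∈ F, q x y z * D x z = R := by
    rw [← r1]
    refine sum_congr rfl fun x _ => ?_
    rw [sum_comm]
    exact sum_congr rfl fun z _ => sum_congr rfl fun y _ => by rw [q23]
  have r3 : ∑ x ∈ F, ∑ y ∈ F, ∑ z ∈ F, q x y z * D y z = R := by
    rw [← r2, sum_comm]
    exact sum_congr rfl fun y _ => sum_congr rfl fun x _ => sum_congr rfl fun z _ => by
      rw [q12]
  have hle : ∑ x ∈ F, ∑ y ∈ F, ∑ z ∈ F, q x y z * (D x y + D x z + D y z) ≤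
      ∑ x ∈ F, ∑ y ∈ F, ∑ z ∈ F, q x y z * (2 * F.card) := by
    refine sum_le_sum fun x _ => sum_le_sum fun y _ => sum_le_sum fun z _ => ?_
    rcases q01 x y z with a | a
    · rw [a, zero_mul, zero_mul]
    have g : x ≠ y ∧ x ≠ z ∧ y ≠ z ∧ ¬ E x y z := by
      by_contra hh
      simp only [hq] at a
      rw [if_neg hh] at a
      norm_num at a
    rw [a, one_mul, one_mul]
    have : D x y + D x z + D y z = ∑ w ∈ F, (q x y w + q x z w + q y z w) := by
      rw [sum_add_distrib, sum_add_distrib]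
    rw [this]
    have h2 : ∑ w ∈ F, (q x y w + q x z w + q y z w) ≤ ∑ w ∈ F, (2 : ℤ) := by
      refine sum_le_sum fun w _ => ?_
      by_contra hcon
      push Not at hcon
      have t1 : q x y w = 1 := by
        rcases q01 x y w with b | b
        · rcases q01 x z w with b2 | b2 <;> rcases q01 y z w with b3 | b3 <;>
            rw [b, b2, b3] at hcon <;> norm_num at hcon
        · exact b
      have t2 : q x z w = 1 := by
        rcases q01 x z w with b | b
        · rcases q01 y z w with b3 | b3 <;>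
            rw [t1, b, b3] at hcon <;> norm_num at hcon
        · exact b
      have t3 : q y z w = 1 := by
        rcases q01 y z w with b | b
        · rw [t1, t2, b] at hcon; norm_num at hcon
        · exact b
      have g1 : x ≠ y ∧ x ≠ w ∧ y ≠ w ∧ ¬ E x y w := by
        by_contra hh
        simp only [hq] at t1
        rw [if_neg hh] at t1
        norm_num at t1
      have g2 : x ≠ z ∧ x ≠ w ∧ z ≠ w ∧ ¬ E x z w := by
        by_contra hh
        simp only [hq] at t2
        rw [if_neg hh] at t2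
        norm_num at t2
      have g3 : y ≠ z ∧ y ≠ w ∧ z ≠ w ∧ ¬ E y z w := by
        by_contra hh
        simp only [hq] at t3
        rw [if_neg hh] at t3
        norm_num at t3
      rcases h.col.four x y z w g.1 g.2.1 g1.2.1 g.2.2.1 g1.2.2.1 g2.2.2.1 with e | e | e | e
      · exact g.2.2.2 e
      · exact g1.2.2.2 e
      · exact g2.2.2.2 e
      · exact g3.2.2.2 e
    rw [sum_const, nsmul_eq_mul] at h2
    linarith
  have e3 : ∑ x ∈ F, ∑ y ∈ F, ∑ z ∈ F, q x y z * (D x y + D x z + D y z) = 3 * R := by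
    simp only [mul_add, sum_add_distrib]
    rw [r1, r2, r3]
    ring
  have e4 : ∑ x ∈ F, ∑ y ∈ F, ∑ z ∈ F, q x y z * (2 * (F.card : ℤ)) = 2 * F.card * N := by
    simp only [← sum_mul]
    rw [hN]
    ring
  rw [e3, e4] at hle
  have hC : N ^ 2 ≤ (F.card : ℤ) ^ 2 * R := by
    have c1 : N ^ 2 ≤ F.card * ∑ x ∈ F, (∑ y ∈ F, D x y) ^ 2 :=
      sq_sum_le_card_mul_sum_sq (s := F) (f := fun x => ∑ y ∈ F, D x y)
    have c2 : ∑ x ∈ F, (∑ y ∈ F, D x y) ^ 2 ≤ ∑ x ∈ F, (F.card * ∑ y ∈ F, D x y ^ 2) :=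
      sum_le_sum fun x _ => sq_sum_le_card_mul_sum_sq (s := F) (f := fun y => D x y)
    rw [← mul_sum] at c2
    have hF0 : (0 : ℤ) ≤ F.card := Int.natCast_nonneg _
    have c3 := mul_le_mul_of_nonneg_left c2 hF0
    have c4 : (F.card : ℤ) * (F.card * ∑ x ∈ F, ∑ y ∈ F, D x y ^ 2) = (F.card : ℤ) ^ 2 * R := by
      rw [hR]; ring
    linarith
  have hN0 : 0 ≤ N := sum_nonneg fun x _ => sum_nonneg fun y _ => sum_nonneg fun z _ => by
    rcases q01 x y z with a | a <;> rw [a]; norm_num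
  have hNle : 3 * N ≤ 2 * (F.card : ℤ) ^ 3 := by
    have hF0 : (0 : ℤ) ≤ F.card := Int.natCast_nonneg _
    rcases eq_or_lt_of_le hN0 with h0 | hpos
    · have h01 : 0 ≤ 2 * (F.card : ℤ) ^ 3 := mul_nonneg (by norm_num) (pow_nonneg hF0 3)
      linarith
    · by_contra hcon
      push Not at hcon
      have d1 : 3 * N ^ 2 ≤ (F.card : ℤ) ^ 2 * (2 * F.card * N) := by
        have := mul_le_mul_of_nonneg_left hle (sq_nonneg (F.card : ℤ))
        linarith
      have d2 : N * (2 * (F.card : ℤ) ^ 3) < N * (3 * N) := mul_lt_mul_of_pos_left hcon hpos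
      nlinarith
  -- the number of all ordered triples
  have hall : (F.card : ℤ) ^ 3 - 3 * (F.card : ℤ) ^ 2 ≤ SS E F F F + N := by
    have hp : ∀ x y z : V, 1 - (if x = y then 1 else 0) - (if x = z then 1 else 0) -
        (if y = z then (1 : ℤ) else 0) ≤ ee E x y z + q x y z := by
      intro x y z
      have w1 := ee_nonneg (E := E) x y z
      have w2 : 0 ≤ q x y z := by rcases q01 x y z with a | a <;> rw [a]; norm_num
      by_cases a1 : x = y
      · rw [if_pos a1]
        split_ifs <;> linarith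
      by_cases a2 : x = z
      · rw [if_neg a1, if_pos a2]
        split_ifs <;> linarith
      by_cases a3 : y = z
      · rw [if_neg a1, if_neg a2, if_pos a3]
        linarith
      rw [if_neg a1, if_neg a2, if_neg a3]
      by_cases a4 : E x y z
      · have : ee E x y z = 1 := by unfold ee; exact if_pos ⟨a1, a2, a3, a4⟩
        linarith
      · have : q x y z = 1 := if_pos ⟨a1, a2, a3, a4⟩
        linarith
    have hs : ∑ x ∈ F, ∑ y ∈ F, ∑ z ∈ F, ((1 : ℤ) - (if x = y then 1 else 0) -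
        (if x = z then 1 else 0) - (if y = z then (1 : ℤ) else 0)) ≤ SS E F F F + N := by
      unfold SS
      rw [hN, ← sum_add_distrib]
      refine sum_le_sum fun x _ => ?_
      rw [← sum_add_distrib]
      refine sum_le_sum fun y _ => ?_
      rw [← sum_add_distrib]
      exact sum_le_sum fun z _ => hp x y z
    refine le_trans (le_of_eq ?_) hs
    have i1 : ∀ x ∈ F, ∀ y ∈ F, ∑ z ∈ F, ((1 : ℤ) - (if x = y then 1 else 0) -
        (if x = z then 1 else 0) - (if y = z then (1 : ℤ) else 0)) =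
        F.card - F.card * (if x = y then 1 else 0) - 2 := by
      intro x hx y hy
      rw [sum_sub_distrib, sum_sub_distrib, sum_sub_distrib, sum_const, nsmul_eq_mul, mul_one,
        sum_const, nsmul_eq_mul, sum_ite_eq F x, if_pos hx, sum_ite_eq F y, if_pos hy]
      ring
    rw [sum_congr rfl fun x hx => sum_congr rfl fun y hy => i1 x hx y hy]
    have i2 : ∀ x ∈ F, ∑ y ∈ F, ((F.card : ℤ) - F.card * (if x = y then 1 else 0) - 2) =
        F.card * F.card - F.card - 2 * F.card := by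
      intro x hx
      rw [sum_sub_distrib, sum_sub_distrib, ← mul_sum, sum_ite_eq F x, if_pos hx, sum_const,
        sum_const, nsmul_eq_mul, nsmul_eq_mul]
      ring
    rw [sum_congr rfl i2, sum_const, nsmul_eq_mul]
    ring
  linarith

end Pool.Agent.R810.TT
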