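import Mathlib

/-! Real inequalities. -/

set_option autoImplicit false

namespace Pool.Agent.R810.TT

theorem p1a {x y z : ℝ} (hy : 0 ≤ y) (h1 : z ≤ x) (h2 : y ≤ z) :
    4 / 9 * (x + y + z) ^ 3 ≤ (x + y) ^ 3 - 3 * (y - z) * x ^ 2 + 3 * y * z ^ 2 + z ^ 3 := by
  obtain ⟨u, hu⟩ : ∃ u, u = z - y := ⟨_, rfl⟩
  obtain ⟨v, hv⟩ : ∃ v, v = x - z := ⟨_, rfl⟩
  have hu0 : 0 ≤ u := by linarith
  have hv0 : 0 ≤ v := by linarith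
  have e1 : z = y + u := by linarith
  have e2 : x = y + u + v := by linarith
  have key : (x + y) ^ 3 - 3 * (y - z) * x ^ 2 + 3 * y * z ^ 2 + z ^ 3 -
      4 / 9 * (x + y + z) ^ 3 = 2 * y * (u ^ 2 + u * v + v ^ 2) + 13 / 9 * u ^ 3 +
      11 / 3 * u ^ 2 * v + 10 / 3 * u * v ^ 2 + 5 / 9 * v ^ 3 := by
    rw [e2, e1]; ring
  have : 0 ≤ 2 * y * (u ^ 2 + u * v + v ^ 2) + 13 / 9 * u ^ 3 +
      11 / 3 * u ^ 2 * v + 10 / 3 * u * v ^ 2 + 5 / 9 * v ^ 3 := by positivity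
  linarith

theorem p1b {x y z : ℝ} (hz : 0 ≤ z) (h1 : z ≤ x) (h2 : z ≤ y)
    (h3 : y ≤ 3 / 5 * (x + y + z)) :
    4 / 9 * (x + y + z) ^ 3 ≤ (x + y) ^ 3 - 3 * (y - z) * x ^ 2 - (y - z) ^ 3 +
      3 * y * z ^ 2 + z ^ 3 := by
  obtain ⟨u, hu⟩ : ∃ u, u = x - z := ⟨_, rfl⟩
  obtain ⟨v, hv⟩ : ∃ v, v = y - z := ⟨_, rfl⟩
  have hu0 : 0 ≤ u := by linarith
  have hv0 : 0 ≤ v := by linarith
  have hw : 0 ≤ 2 * z + 3 / 2 * u - v := by rw [hu, hv]; linarith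
  have e1 : x = z + u := by linarith
  have e2 : y = z + v := by linarith
  have key : (x + y) ^ 3 - 3 * (y - z) * x ^ 2 - (y - z) ^ 3 + 3 * y * z ^ 2 + z ^ 3 -
      4 / 9 * (x + y + z) ^ 3 = z * (2 * (u - v / 2) ^ 2 + 11 / 18 * v ^ 2) +
      u * ((v - 2 / 3 * u) ^ 2 + 1 / 9 * u ^ 2) + 4 / 9 * v ^ 2 * (2 * z + 3 / 2 * u - v) := by
    rw [e2, e1]; ring
  have : 0 ≤ z * (2 * (u - v / 2) ^ 2 + 11 / 18 * v ^ 2) +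
      u * ((v - 2 / 3 * u) ^ 2 + 1 / 9 * u ^ 2) + 4 / 9 * v ^ 2 * (2 * z + 3 / 2 * u - v) := by
    positivity
  linarith

theorem c1 {x y z : ℝ} (hy : 0 ≤ y) (h1 : y ≤ x) (h2 : x ≤ z) (h3 : z ≤ 2 * x) :
    4 / 9 * (x + y + z) ^ 3 ≤ (x + y) ^ 3 - 3 * (y - z) * x ^ 2 +
      3 * y * z ^ 2 + (z ^ 3 - 9 / 8 * z * (z - x) ^ 2) := by
  obtain ⟨s, hs⟩ : ∃ s, s = x - y := ⟨_, rfl⟩
  obtain ⟨d, hd⟩ : ∃ d, d = z - x := ⟨_, rfl⟩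
  have hs0 : 0 ≤ s := by linarith
  have hd0 : 0 ≤ d := by linarith
  obtain ⟨w, hw⟩ : ∃ w, w = y + s - d := ⟨_, rfl⟩
  have hw0 : 0 ≤ w := by rw [hw, hs, hd]; linarith
  have e1 : x = y + s := by linarith
  have e2 : z = y + s + d := by linarith
  have key : (x + y) ^ 3 - 3 * (y - z) * x ^ 2 + 3 * y * z ^ 2 +
      (z ^ 3 - 9 / 8 * z * (z - x) ^ 2) - 4 / 9 * (x + y + z) ^ 3 =
      y * (47 / 36 * s ^ 2 + 23 / 36 * (s * d) + 11 / 36 * d ^ 2) + 3 / 4 * s ^ 3 +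
      w * (41 / 72 * d ^ 2 + 49 / 36 * (s * d) + 25 / 36 * s ^ 2) := by
    rw [hw, e2, e1]; ring
  have : 0 ≤ y * (47 / 36 * s ^ 2 + 23 / 36 * (s * d) + 11 / 36 * d ^ 2) + 3 / 4 * s ^ 3 +
      w * (41 / 72 * d ^ 2 + 49 / 36 * (s * d) + 25 / 36 * s ^ 2) := by positivity
  linarith

theorem c2 {x y z : ℝ} (h1 : x ≤ y) (h2 : y ≤ z) (h3 : z ≤ 2 * x) :
    4 / 9 * (x + y + z) ^ 3 ≤ (x + y) ^ 3 - 3 * (y - z) * x ^ 2 +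
      3 * y * z ^ 2 + (z ^ 3 - 9 / 8 * z * (z - x) ^ 2) := by
  obtain ⟨s, hs⟩ : ∃ s, s = y - x := ⟨_, rfl⟩
  obtain ⟨d, hd⟩ : ∃ d, d = z - x := ⟨_, rfl⟩
  have hs0 : 0 ≤ s := by linarith
  have hd0 : 0 ≤ d := by linarith
  obtain ⟨w, hw⟩ : ∃ w, w = x - d := ⟨_, rfl⟩
  have hw0 : 0 ≤ w := by rw [hw, hd]; linarith
  have e1 : x = w + d := by linarith
  have e3 : z = w + d + d := by linarith
  have e2 : y = w + d + s := by linarith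
  have key : (x + y) ^ 3 - 3 * (y - z) * x ^ 2 + 3 * y * z ^ 2 +
      (z ^ 3 - 9 / 8 * z * (z - x) ^ 2) - 4 / 9 * (x + y + z) ^ 3 =
      w * (2 * (s - d / 2) ^ 2 + 3 / 8 * d ^ 2) + 5 / 9 * s ^ 3 +
      d * (2 / 3 * (s - d / 4) ^ 2 + 19 / 72 * d ^ 2) := by
    rw [e3, e2, e1]; ring
  have : 0 ≤ w * (2 * (s - d / 2) ^ 2 + 3 / 8 * d ^ 2) + 5 / 9 * s ^ 3 +
      d * (2 / 3 * (s - d / 4) ^ 2 + 19 / 72 * d ^ 2) := by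
    positivity
  linarith

theorem c3 {x y z : ℝ} (hx : 0 ≤ x) (h1 : x ≤ z) (h2 : z ≤ y) (h3 : y ≤ 3 / 5 * (x + y + z)) :
    4 / 9 * (x + y + z) ^ 3 ≤ (x + y) ^ 3 - 3 * (y - z) * x ^ 2 - (y - z) ^ 3 +
      3 * y * z ^ 2 + (z ^ 3 - 9 / 8 * z * (z - x) ^ 2) := by
  obtain ⟨d, hd⟩ : ∃ d, d = z - x := ⟨_, rfl⟩
  obtain ⟨r, hr⟩ : ∃ r, r = y - z := ⟨_, rfl⟩
  have hd0 : 0 ≤ d := by linarith
  have hr0 : 0 ≤ r := by linarith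
  obtain ⟨w, hw⟩ : ∃ w, w = 2 * x + 1 / 2 * d - r := ⟨_, rfl⟩
  have hw0 : 0 ≤ w := by rw [hw, hd, hr]; linarith
  have e1 : z = x + d := by linarith
  have e2 : y = x + d + r := by linarith
  have key : (x + y) ^ 3 - 3 * (y - z) * x ^ 2 - (y - z) ^ 3 + 3 * y * z ^ 2 +
      (z ^ 3 - 9 / 8 * z * (z - x) ^ 2) - 4 / 9 * (x + y + z) ^ 3 =
      x * (7 / 8 * d ^ 2 + 2 * (d * r) + 10 / 9 * r ^ 2) + 23 / 72 * d ^ 3 +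
      2 / 3 * (d ^ 2 * r) + 1 / 9 * (d * r ^ 2) + 4 / 9 * r ^ 2 * w := by
    rw [hw, e2, e1]; ring
  have : 0 ≤ x * (7 / 8 * d ^ 2 + 2 * (d * r) + 10 / 9 * r ^ 2) + 23 / 72 * d ^ 3 +
      2 / 3 * (d ^ 2 * r) + 1 / 9 * (d * r ^ 2) + 4 / 9 * r ^ 2 * w := by positivity
  linarith

/-- a large class of isolated points -/
theorem p6 {x y z : ℝ} (hx : 0 ≤ x) (hz : 0 ≤ z) (h3 : 3 / 5 * (x + y + z) ≤ y) :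
    4 / 9 * (x + y + z) ^ 3 ≤ (x + y) ^ 3 - 3 * (y - z) ^ 2 * x - x ^ 3 + 3 * y * z ^ 2 := by
  obtain ⟨q, hq⟩ : ∃ q, q = x + z := ⟨_, rfl⟩
  have hq0 : 0 ≤ q := by linarith
  obtain ⟨w, hw⟩ : ∃ w, w = 2 / 3 * y - q := ⟨_, rfl⟩
  have hw0 : 0 ≤ w := by rw [hw, hq]; linarith
  have e1 : x * z ^ 2 ≤ 4 / 27 * q ^ 3 := by
    have : 4 / 27 * q ^ 3 - x * z ^ 2 = (2 * x - z) ^ 2 * (x + 4 * z) / 27 := by
      rw [hq]; ring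
    have h5 : 0 ≤ (2 * x - z) ^ 2 * (x + 4 * z) / 27 := by positivity
    linarith
  have e2 : (x + y) ^ 3 - 3 * (y - z) ^ 2 * x - x ^ 3 + 3 * y * z ^ 2 =
      y ^ 3 + 3 * y * q ^ 2 - 3 * (x * z ^ 2) := by
    rw [hq]; ring
  have e3 : y = 3 / 2 * (w + q) := by linarith
  have e4 : y ^ 3 + 3 * y * q ^ 2 - 4 / 9 * q ^ 3 - 4 / 9 * (y + q) ^ 3 =
      15 / 8 * w ^ 3 + 21 / 8 * (w ^ 2 * q) + 17 / 8 * (w * q ^ 2) + 35 / 72 * q ^ 3 := by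
    rw [e3]; ring
  have h5 : 0 ≤ 15 / 8 * w ^ 3 + 21 / 8 * (w ^ 2 * q) + 17 / 8 * (w * q ^ 2) + 35 / 72 * q ^ 3 := by
    positivity
  have e5 : (x + y + z) = y + q := by rw [hq]; ring
  rw [e2, e5]
  linarith

end Pool.Agent.R810.TT
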