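import Pool.Agent.R810.TT.Num

/-! The real inequality. -/

set_option autoImplicit false

namespace Pool.Agent.R810.TT

theorem real_main {x y z W M Φ : ℝ} (hx : 0 ≤ x) (hy : 0 ≤ y) (hz : 0 ≤ z) (hM0 : 0 ≤ M)
    (hM1 : M ≤ x * z ^ 2) (hΦ : z ^ 3 / 3 ≤ Φ)
    (hG : 2 * M ^ 2 - z ^ 2 * x * M ≤ x ^ 2 * z * Φ)
    (w1 : (x + y) ^ 3 - 3 * (y - z) * x ^ 2 - (max (y - z) 0) ^ 3 ≤ W)
    (w2 : (x + y) ^ 3 - 3 * (y - z) ^ 2 * x - x ^ 3 ≤ W)
    (hb : (x + y + z) ^ 2 / 22 ≤ y * (x + y)) :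
    4 / 9 * (x + y + z) ^ 3 ≤ W + 3 * y * z ^ 2 + 3 * (x * z ^ 2 - M) + Φ := by
  obtain ⟨e, he0, he1, hMe, hΦe⟩ := kG hx hz hM0 hM1 hΦ hG
  rw [hMe]
  have hΦ0 : 0 ≤ Φ := le_trans (by positivity) hΦ
  have hK0 : 0 ≤ 3 * (1 - e) * (x * z ^ 2) := by
    have : 0 ≤ 1 - e := by linarith
    positivity
  rcases le_or_gt (3 / 5 * (x + y + z)) y with h6 | h6
  · have := p6 hx hz h6
    linarith
  rcases le_or_gt z x with hzx | hzx
  · have hk := kA hx hz he1 hzx hΦe
    rcases le_or_gt y z with hyz | hyz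
    · rw [max_eq_right (by linarith)] at w1
      have := p1a hy hzx hyz
      linarith
    · rw [max_eq_left (by linarith)] at w1
      have := p1b hz hzx hyz.le h6.le
      linarith
  rcases le_or_gt z (2 * x) with hz2 | hz2
  · have hk := kB (x := x) hz hΦe
    rcases le_or_gt y z with hyz | hyz
    · rw [max_eq_right (by linarith)] at w1
      rcases le_or_gt y x with hyx | hyx
      · have := c1 hy hyx hzx.le hz2
        linarith
      · have := c2 hyx.le hyz hz2
        linarith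
    · rw [max_eq_left (by linarith)] at w1
      have := c3 hx hzx.le hyz.le h6.le
      linarith
  -- now `2 x < z`
  have hk := kT hx hz hz2.le hΦ hΦe
  have hzp : 0 < z := by linarith
  obtain ⟨s, hs⟩ : ∃ s, s = x / z := ⟨_, rfl⟩
  obtain ⟨r, hr⟩ : ∃ r, r = y / z := ⟨_, rfl⟩
  have ex : x = s * z := by rw [hs]; field_simp
  have ey : y = r * z := by rw [hr]; field_simp
  have hs0 : 0 ≤ s := by rw [hs]; positivity
  have hr0 : 0 ≤ r := by rw [hr]; positivity
  have hs1 : s ≤ 1 / 2 := by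
    rw [hs, div_le_iff₀ hzp]
    linarith
  have hz3 : 0 ≤ z ^ 3 := pow_nonneg hz 3
  rcases le_or_gt y z with hyz | hyz
  · rw [max_eq_right (by linarith)] at w1
    have hr1 : r ≤ 1 := by
      rw [hr, div_le_iff₀ hzp]
      linarith
    have hg : 0 ≤ gg s r := by
      rcases le_or_gt r (1 / 5) with h7 | h7
      · rcases le_or_gt s (21 / 50) with h8 | h8
        · have hb' : (1 + s + r) ^ 2 / 22 ≤ r * (s + r) := by
            have hzz : 0 < z ^ 2 := by positivity
            refine le_of_mul_le_mul_right ?_ hzz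
            rw [ex, ey] at hb
            refine le_trans (le_of_eq ?_) (le_trans hb (le_of_eq ?_)) <;> ring
          have := r_ge hs0 h8 hr0 hb'
          exact gg_b hs0 this (by linarith)
        · exact gg_c h8.le hs1 hr0 h7
      · rcases le_or_gt r (1 / 2) with h8 | h8
        · exact gg_b hs0 (by linarith) h8
        · exact gg_a hs0 hs1 h8.le hr1
    have e1 : (x + y) ^ 3 - 3 * (y - z) * x ^ 2 + 3 * y * z ^ 2 +
        (z ^ 3 / 3 + 813 / 1000 * (x * z ^ 2)) - 4 / 9 * (x + y + z) ^ 3 = z ^ 3 * gg s r := by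
      rw [ex, ey]; unfold gg; ring
    have := mul_nonneg hz3 hg
    linarith
  · rw [max_eq_left (by linarith)] at w1
    have hp0 : 0 ≤ r - 1 := by
      have : 1 ≤ r := by
        rw [hr, le_div_iff₀ hzp]
        linarith
      linarith
    have hp1 : r - 1 ≤ 1 / 2 + 3 / 2 * s := by
      have h9 : r * z < 3 / 5 * (s * z + r * z + z) := by rw [← ex, ← ey]; exact h6
      have : (2 / 5 * r - 3 / 5 * s - 3 / 5) * z < 0 := by linarith
      have h10 : 2 / 5 * r - 3 / 5 * s - 3 / 5 < 0 := by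
        by_contra hcon
        push Not at hcon
        have := mul_nonneg hcon hz
        linarith
      linarith
    have hg := hh_nonneg hs0 hs1 hp0 hp1
    have e1 : (x + y) ^ 3 - 3 * (y - z) * x ^ 2 - (y - z) ^ 3 + 3 * y * z ^ 2 +
        (z ^ 3 / 3 + 813 / 1000 * (x * z ^ 2)) - 4 / 9 * (x + y + z) ^ 3 =
        z ^ 3 * hh s (r - 1) := by
      rw [ex, ey]; unfold hh; ring
    have := mul_nonneg hz3 hg
    linarith

end Pool.Agent.R810.TT
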