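import Pool.Agent.R810.TT.Cnt
import Pool.Agent.R810.TT.RMain

/-! The main inequality. -/

set_option autoImplicit false
open Finset

namespace Pool.Agent.R810.TT

open Pool.Agent.R810.TC (Good mon prs Col dominating)

variable {V : Type*} [DecidableEq V] [Fintype V] {E : V → V → V → Prop} {c : V → V → Bool}

theorem good_of (h : Col E c) : Good c where
  symm := h.symm
  four a b d e h1 h2 h3 h4 h5 h6 := by
    rcases h.four a b d e h1 h2 h3 h4 h5 h6 with q | q | q | q
    · exact Or.inl (h.mono _ _ _ h1 h2 h4 q)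
    · exact Or.inr (Or.inl (h.mono _ _ _ h1 h3 h5 q))
    · exact Or.inr (Or.inr (Or.inl (h.mono _ _ _ h2 h3 h6 q)))
    · exact Or.inr (Or.inr (Or.inr (h.mono _ _ _ h4 h5 h6 q)))

theorem ne_tf {b : Bool} (h1 : b = true) (h2 : b = false) : False := by
  rw [h1] at h2; exact absurd h2 (by decide)

theorem two_main (h : Cv E c) (hF : ∃ v, ∀ y, y ≠ v → c v y = true)
    (hb : (Fintype.card V : ℤ) ^ 2 ≤ 11 * prs c univ false) :
    4 * (Fintype.card V : ℤ) ^ 3 ≤ 9 * SS E univ univ univ + 144 * (Fintype.card V : ℤ) ^ 2 := by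
  classical
  have cs := h.col.symm
  set F : Finset V := univ.filter fun v => ∀ y, y ≠ v → c v y = true with hFdef
  have hFm : ∀ v, v ∈ F ↔ ∀ y, y ≠ v → c v y = true := by
    intro v; rw [hFdef, mem_filter]; simp
  have hPm : ∀ v, v ∈ Fᶜ → v ∉ F := fun v hv => mem_compl.1 hv
  obtain ⟨l0, hl0⟩ := hF
  have hl0F : l0 ∈ F := (hFm l0).2 hl0
  -- pairs with a point of `F`
  have hred : ∀ v ∈ F, ∀ y, y ≠ v → c v y = true := fun v hv => (hFm v).1 hv
  have hred' : ∀ v ∈ F, ∀ y, y ≠ v → c y v = true := fun v hv y hy => by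
    rw [cs]; exact hred v hv y hy
  have hnpos : 0 < Fintype.card V := Fintype.card_pos_iff.2 ⟨l0⟩
  have hn1 : (1 : ℤ) ≤ Fintype.card V := by exact_mod_cast hnpos
  -- blue pairs
  have hbl : prs c univ false = prs c Fᶜ false := by
    unfold prs
    rw [← sum_add_sum_compl F]
    have z1 : ∑ x ∈ F, ∑ y : V, (if x ≠ y ∧ c x y = false then (1 : ℤ) else 0) = 0 := by
      refine sum_eq_zero fun x hx => sum_eq_zero fun y _ => ?_
      rw [if_neg]
      rintro ⟨h1, h2⟩
      exact ne_tf (hred x hx y (Ne.symm h1)) h2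
    rw [z1, zero_add]
    refine sum_congr rfl fun x hx => ?_
    rw [← sum_add_sum_compl F]
    have z2 : ∑ y ∈ F, (if x ≠ y ∧ c x y = false then (1 : ℤ) else 0) = 0 := by
      refine sum_eq_zero fun y hy => ?_
      rw [if_neg]
      rintro ⟨h1, h2⟩
      exact ne_tf (hred' y hy x h1) h2
    rw [z2, zero_add]
  have hPne : (Fᶜ).Nonempty := by
    by_contra hcon
    rw [not_nonempty_iff_eq_empty] at hcon
    have : prs c univ false = 0 := by
      rw [hbl, hcon]
      simp [prs]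
    rw [this] at hb
    nlinarith
  obtain ⟨u, huP, s, hus⟩ := dominating (good_of h.col) hPne
  have hu : ∀ y ∈ Fᶜ, y ≠ u → c u y = false := by
    cases s
    · exact hus
    · exfalso
      apply hPm u huP
      rw [hFm]
      intro y hy
      by_cases hyF : y ∈ F
      · exact hred' y hyF u (Ne.symm hy)
      · exact hus y (mem_compl.2 hyF) hy
  have hu' : ∀ y ∈ Fᶜ, y ≠ u → c y u = false := fun y hy hyu => by rw [cs]; exact hu y hy hyu
  -- the basic claims
  have hPF : ∀ x ∈ Fᶜ, ∀ l ∈ F, x ≠ l := by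
    intro x hx l hl e
    exact hPm x hx (e ▸ hl)
  have k1 : ∀ x ∈ Fᶜ, ∀ y ∈ Fᶜ, ∀ z ∈ Fᶜ, x ≠ y → x ≠ z → y ≠ z → c x y = c x z → c x y = c y z →
      E x y z := by
    intro x hx y hy z hz d1 d2 d3 e1 e2
    cases hc : c x y with
    | false =>
      rcases h.col.four x y z l0 d1 d2 (hPF x hx l0 hl0F) d3 (hPF y hy l0 hl0F)
        (hPF z hz l0 hl0F) with q | q | q | q
      · exact q
      · have := (h.col.mono _ _ _ d1 (hPF x hx l0 hl0F) (hPF y hy l0 hl0F) q).1
        exact (ne_tf (this.trans (hred' l0 hl0F x (hPF x hx l0 hl0F))) hc).elim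
      · have := (h.col.mono _ _ _ d2 (hPF x hx l0 hl0F) (hPF z hz l0 hl0F) q).1
        exact (ne_tf (e1.trans (this.trans (hred' l0 hl0F x (hPF x hx l0 hl0F)))) hc).elim
      · have := (h.col.mono _ _ _ d3 (hPF y hy l0 hl0F) (hPF z hz l0 hl0F) q).1
        exact (ne_tf (e2.trans (this.trans (hred' l0 hl0F y (hPF y hy l0 hl0F)))) hc).elim
    | true =>
      have hc2 : c x z = true := e1.symm.trans hc
      have hc3 : c y z = true := e2.symm.trans hc
      have ux : x ≠ u := fun e => ne_tf hc (by rw [e]; exact hu y hy (fun e' => d1 (e.trans e'.symm)))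
      have uy : y ≠ u := fun e => ne_tf hc (by rw [e]; exact hu' x hx ux)
      have uz : z ≠ u := fun e => ne_tf hc2 (by rw [e]; exact hu' x hx ux)
      rcases h.col.four x y z u d1 d2 ux d3 uy uz with q | q | q | q
      · exact q
      · exact (ne_tf hc ((h.col.mono _ _ _ d1 ux uy q).1.trans (hu' x hx ux))).elim
      · exact (ne_tf hc2 ((h.col.mono _ _ _ d2 ux uz q).1.trans (hu' x hx ux))).elim
      · exact (ne_tf hc3 ((h.col.mono _ _ _ d3 uy uz q).1.trans (hu' y hy uy))).elim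
  have k2 : ∀ x ∈ Fᶜ, ∀ y ∈ Fᶜ, ∀ l ∈ F, x ≠ y → c x y = true → E x y l := by
    intro x hx y hy l hl d1 hc
    have ux : x ≠ u := fun e => ne_tf hc (by rw [e]; exact hu y hy (fun e' => d1 (e.trans e'.symm)))
    have uy : y ≠ u := fun e => ne_tf hc (by rw [e]; exact hu' x hx ux)
    have ul : l ≠ u := (hPF u huP l hl).symm
    rcases h.col.four x y l u d1 (hPF x hx l hl) ux (hPF y hy l hl) uy ul with q | q | q | q
    · exact q
    · exact (ne_tf hc ((h.col.mono _ _ _ d1 ux uy q).1.trans (hu' x hx ux))).elim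
    · exact (ne_tf (hred' l hl x (hPF x hx l hl))
        ((h.col.mono _ _ _ (hPF x hx l hl) ux ul q).1.trans (hu' x hx ux))).elim
    · exact (ne_tf (hred' l hl y (hPF y hy l hl))
        ((h.col.mono _ _ _ (hPF y hy l hl) uy ul q).1.trans (hu' y hy uy))).elim
  have k3 : ∀ x ∈ Fᶜ, ∀ y ∈ Fᶜ, ∀ k ∈ F, ∀ l ∈ F, x ≠ y → k ≠ l → c x y = false →
      E x k l ∨ E y k l := by
    intro x hx y hy k hk l hl d1 d2 hc
    rcases h.col.four x y k l d1 (hPF x hx k hk) (hPF x hx l hl) (hPF y hy k hk) (hPF y hy l hl)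
      d2 with q | q | q | q
    · exact (ne_tf ((h.col.mono _ _ _ d1 (hPF x hx k hk) (hPF y hy k hk) q).1.trans
        (hred' k hk x (hPF x hx k hk))) hc).elim
    · exact (ne_tf ((h.col.mono _ _ _ d1 (hPF x hx l hl) (hPF y hy l hl) q).1.trans
        (hred' l hl x (hPF x hx l hl))) hc).elim
    · exact Or.inl q
    · exact Or.inr q
  -- the structure
  obtain ⟨A, B, hAB, hdis, hA, hB, hG⟩ := str (good_of h.col) Fᶜ
  have hAP : ∀ x ∈ A, x ∈ Fᶜ := fun x hx => by rw [← hAB]; exact mem_union_left _ hx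
  have hBP : ∀ x ∈ B, x ∈ Fᶜ := fun x hx => by rw [← hAB]; exact mem_union_right _ hx
  set m : ℤ := (F.card : ℤ) with hm
  set α : ℤ := (A.card : ℤ) with hα
  set β : ℤ := (B.card : ℤ) with hβ
  have hm0 : 0 ≤ m := Int.natCast_nonneg _
  have hα0 : 0 ≤ α := Int.natCast_nonneg _
  have hβ0 : 0 ≤ β := Int.natCast_nonneg _
  have hpc : ((Fᶜ).card : ℤ) = α + β := by
    rw [← hAB, card_union_of_disjoint hdis]; push_cast; rfl
  have hnc : (Fintype.card V : ℤ) = α + β + m := by
    have := card_add_card_compl F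
    have h2 : ((F.card + (Fᶜ).card : ℕ) : ℤ) = Fintype.card V := by rw [this]
    push_cast at h2
    rw [hpc] at h2
    linarith
  set n : ℤ := (Fintype.card V : ℤ) with hn
  -- counts
  have t1 : mon c Fᶜ ≤ SS E Fᶜ Fᶜ Fᶜ := by
    unfold mon SS
    refine sum_le_sum fun x hx => sum_le_sum fun y hy => sum_le_sum fun z hz => ?_
    split_ifs with q
    · unfold ee
      rw [if_pos ⟨q.1, q.2.1, q.2.2.1, k1 x hx y hy z hz q.1 q.2.1 q.2.2.1 q.2.2.2.1 q.2.2.2.2⟩]
    · exact ee_nonneg _ _ _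
  have t2 : prs c Fᶜ true * m ≤ SS E Fᶜ Fᶜ F := by
    unfold prs SS
    rw [sum_mul]
    refine sum_le_sum fun x hx => ?_
    rw [sum_mul]
    refine sum_le_sum fun y hy => ?_
    split_ifs with q
    · rw [one_mul, hm]
      have : ∑ l ∈ F, (1 : ℤ) ≤ ∑ l ∈ F, ee E x y l := by
        refine sum_le_sum fun l hl => ?_
        unfold ee
        rw [if_pos ⟨q.1, hPF x hx l hl, hPF y hy l hl, k2 x hx y hy l hl q.1 q.2⟩]
      simpa using this
    · rw [zero_mul]
      exact sum_nonneg fun _ _ => ee_nonneg _ _ _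
  have u01 : ∀ x k l, uu E x k l = 0 ∨ uu E x k l = 1 := by
    intro x k l
    unfold uu
    split_ifs
    · exact Or.inr rfl
    · exact Or.inl rfl
  have t3 : ∑ x ∈ Fᶜ, (m * m - m - ms E F x) ≤ SS E Fᶜ F F := by
    unfold SS
    refine sum_le_sum fun x hx => ?_
    have i1 : ∑ k ∈ F, ∑ l ∈ F, ((1 : ℤ) - (if k = l then 1 else 0)) = m * m - m := by
      have : ∀ k ∈ F, ∑ l ∈ F, ((1 : ℤ) - (if k = l then 1 else 0)) = m - 1 := by
        intro k hk
        rw [sum_sub_distrib, sum_const, nsmul_eq_mul, mul_one, sum_ite_eq F k, if_pos hk]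
      rw [sum_congr rfl this, sum_const, nsmul_eq_mul]
      ring
    unfold ms
    rw [← i1, ← sum_sub_distrib]
    refine sum_le_sum fun k hk => ?_
    rw [← sum_sub_distrib]
    refine sum_le_sum fun l hl => ?_
    have w0 := ee_nonneg (E := E) x k l
    by_cases a1 : k = l
    · rw [if_pos a1]
      rcases u01 x k l with a | a <;> rw [a] <;> linarith
    · rw [if_neg a1]
      by_cases a2 : E x k l
      · have e1 : ee E x k l = 1 := by
          unfold ee
          rw [if_pos ⟨hPF x hx k hk, hPF x hx l hl, a1, a2⟩]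
        rcases u01 x k l with a | a <;> rw [a, e1] <;> norm_num
      · have e1 : uu E x k l = 1 := by unfold uu; rw [if_pos ⟨a1, a2⟩]
        rw [e1]; linarith
  have t4 : ∑ x ∈ B, ms E F x ≤ m * m := by
    have e1 : ∑ x ∈ B, ms E F x = ∑ k ∈ F, ∑ l ∈ F, ∑ x ∈ B, uu E x k l := by
      unfold ms
      rw [sum_comm]
      refine sum_congr rfl fun k _ => ?_
      rw [sum_comm]
    rw [e1]
    have e2 : ∑ k ∈ F, ∑ l ∈ F, ∑ x ∈ B, uu E x k l ≤ ∑ k ∈ F, ∑ l ∈ F, (1 : ℤ) := by
      refine sum_le_sum fun k hk => sum_le_sum fun l hl => ?_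
      by_contra hcon
      push Not at hcon
      -- two missing points
      have hex : ∃ x ∈ B, uu E x k l = 1 := by
        by_contra hno
        push Not at hno
        have : ∑ x ∈ B, uu E x k l = 0 := sum_eq_zero fun x hx => by
          rcases u01 x k l with a | a
          · exact a
          · exact absurd a (hno x hx)
        rw [this] at hcon
        norm_num at hcon
      obtain ⟨x, hx, hux⟩ := hex
      have hex2 : ∃ y ∈ B.erase x, uu E y k l = 1 := by
        by_contra hno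
        push Not at hno
        have h0 : ∑ y ∈ B.erase x, uu E y k l = 0 := sum_eq_zero fun y hy => by
          rcases u01 y k l with a | a
          · exact a
          · exact absurd a (hno y hy)
        rw [← add_sum_erase B _ hx, h0, hux] at hcon
        norm_num at hcon
      obtain ⟨y, hy, huy⟩ := hex2
      rw [mem_erase] at hy
      have g1 : k ≠ l ∧ ¬ E x k l := by
        by_contra hh
        unfold uu at hux
        rw [if_neg hh] at hux
        norm_num at hux
      have g2 : k ≠ l ∧ ¬ E y k l := by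
        by_contra hh
        unfold uu at huy
        rw [if_neg hh] at huy
        norm_num at huy
      rcases k3 x (hBP x hx) y (hBP y hy.2) k hk l hl hy.1.symm g1.1
        (hB x hx y hy.2 hy.1.symm) with q | q
      · exact g1.2 q
      · exact g2.2 q
    refine e2.trans (le_of_eq ?_)
    simp [hm]
  have t5 : prs c Fᶜ false ≤ 2 * β * (α + β) := by
    have i1 : prs c Fᶜ false ≤ ∑ x ∈ Fᶜ, ∑ y ∈ Fᶜ, ((if x ∈ B then (1 : ℤ) else 0) +
        (if y ∈ B then 1 else 0)) := by
      unfold prs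
      refine sum_le_sum fun x hx => sum_le_sum fun y hy => ?_
      by_cases a1 : x ∈ B
      · rw [if_pos a1]
        split_ifs <;> norm_num
      · by_cases a2 : y ∈ B
        · rw [if_pos a2]
          split_ifs <;> norm_num
        · have hxA : x ∈ A := by
            rw [← hAB, mem_union] at hx
            exact hx.resolve_right a1
          have hyA : y ∈ A := by
            rw [← hAB, mem_union] at hy
            exact hy.resolve_right a2
          rw [if_neg a1, if_neg a2, if_neg]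
          · norm_num
          · rintro ⟨q1, q2⟩
            exact ne_tf (hA x hxA y hyA q1) q2
    refine i1.trans (le_of_eq ?_)
    have hBsub : B ⊆ Fᶜ := fun x hx => hBP x hx
    have i2 : ∑ x ∈ Fᶜ, (if x ∈ B then (1 : ℤ) else 0) = β := by
      rw [sum_ite_mem, inter_eq_right.2 hBsub]
      simp [hβ]
    have i3 : ∀ x ∈ Fᶜ, ∑ y ∈ Fᶜ, ((if x ∈ B then (1 : ℤ) else 0) + (if y ∈ B then 1 else 0)) =
        (α + β) * (if x ∈ B then (1 : ℤ) else 0) + β := by
      intro x _
      rw [sum_add_distrib, sum_const, nsmul_eq_mul, i2, hpc]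
    rw [sum_congr rfl i3, sum_add_distrib, ← mul_sum, i2, sum_const, nsmul_eq_mul, hpc]
    ring
  -- the sum over `A`
  set M : ℤ := ∑ x ∈ A, ms E F x with hM
  have hms0 : ∀ x, 0 ≤ ms E F x := fun x => sum_nonneg fun k _ => sum_nonneg fun l _ => by
    rcases u01 x k l with a | a <;> rw [a]; norm_num
  have hms1 : ∀ x, ms E F x ≤ m * m := by
    intro x
    have : ms E F x ≤ ∑ k ∈ F, ∑ l ∈ F, (1 : ℤ) := sum_le_sum fun k _ => sum_le_sum fun l _ => by
      rcases u01 x k l with a | a <;> rw [a]; norm_num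
    refine this.trans (le_of_eq ?_)
    simp [hm]
  have hM0 : 0 ≤ M := sum_nonneg fun x _ => hms0 x
  have hM1 : M ≤ α * m ^ 2 := by
    have : M ≤ ∑ x ∈ A, m * m := sum_le_sum fun x _ => hms1 x
    rw [sum_const, nsmul_eq_mul] at this
    rw [hα]
    linarith
  set Φ : ℤ := SS E F F F with hΦ
  have hgm : 2 * M ^ 2 - m ^ 2 * α * M ≤ α ^ 2 * m * Φ := by
    have g1 : ∑ x ∈ A, (2 * ms E F x ^ 2 - m ^ 2 * ms E F x) ≤ ∑ x ∈ A, m * Φ :=
      sum_le_sum fun x hx => goodman h F (hPm x (hAP x hx))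
    rw [sum_const, nsmul_eq_mul, sum_sub_distrib, ← mul_sum, ← mul_sum] at g1
    have g2 : M ^ 2 ≤ α * ∑ x ∈ A, ms E F x ^ 2 :=
      sq_sum_le_card_mul_sum_sq (s := A) (f := fun x => ms E F x)
    have g3 := mul_le_mul_of_nonneg_left g1 hα0
    have g4 : α * (2 * ∑ x ∈ A, ms E F x ^ 2 - m ^ 2 * ∑ x ∈ A, ms E F x) =
        2 * (α * ∑ x ∈ A, ms E F x ^ 2) - m ^ 2 * α * M := by rw [hM]; ring
    have g5 : α * ((A.card : ℤ) * (m * Φ)) = α ^ 2 * m * Φ := by rw [← hα]; ring
    rw [g4, g5] at g3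
    linarith
  have hdc : m ^ 3 - 9 * m ^ 2 ≤ 3 * Φ := deCaen h F
  have hN : |m| + ((Fᶜ).card : ℤ) ≤ n := by
    rw [abs_of_nonneg hm0, hpc]; linarith
  obtain ⟨g1, g2⟩ := hG m n hN
  rw [hpc] at g1 g2
  -- the real inequality
  have hΦ0 : 0 ≤ Φ := sum_nonneg fun x _ => sum_nonneg fun y _ => sum_nonneg fun z _ =>
    ee_nonneg _ _ _
  set Wz : ℤ := mon c Fᶜ + 3 * m * prs c Fᶜ true + 7 * n * (α + β) with hWz
  have hR := real_main (x := (α : ℝ)) (y := (β : ℝ)) (z := (m : ℝ)) (W := (Wz : ℝ)) (M := (M : ℝ))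
    (Φ := (Φ : ℝ) + 3 * (m : ℝ) ^ 2) (by exact_mod_cast hα0) (by exact_mod_cast hβ0)
    (by exact_mod_cast hm0) (by exact_mod_cast hM0) (by exact_mod_cast hM1)
    (by
      have : ((m ^ 3 - 9 * m ^ 2 : ℤ) : ℝ) ≤ ((3 * Φ : ℤ) : ℝ) := by exact_mod_cast hdc
      push_cast at this
      linarith)
    (by
      have : ((2 * M ^ 2 - m ^ 2 * α * M : ℤ) : ℝ) ≤ ((α ^ 2 * m * Φ : ℤ) : ℝ) := by
        exact_mod_cast hgm
      push_cast at this
      have h3 : (0 : ℝ) ≤ (α : ℝ) ^ 2 * m * (3 * (m : ℝ) ^ 2) := by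
        have : (0 : ℝ) ≤ m := by exact_mod_cast hm0
        positivity
      linarith)
    (by
      have : ((G1 α β m : ℤ) : ℝ) ≤ (Wz : ℝ) := by exact_mod_cast g1
      unfold G1 at this
      push_cast at this
      linarith)
    (by
      have : ((G2 α β m : ℤ) : ℝ) ≤ (Wz : ℝ) := by exact_mod_cast g2
      unfold G2 at this
      push_cast at this
      linarith)
    (by
      have h1 : n ^ 2 ≤ 22 * (β * (α + β)) := by
        rw [hbl] at hb
        linarith
      have : ((n ^ 2 : ℤ) : ℝ) ≤ ((22 * (β * (α + β)) : ℤ) : ℝ) := by exact_mod_cast h1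
      rw [hnc] at this
      push_cast at this
      linarith)
  have hRz : 4 * (α + β + m) ^ 3 ≤ 9 * (Wz + 3 * β * m ^ 2 + 3 * (α * m ^ 2 - M) +
      (Φ + 3 * m ^ 2)) := by
    have : ((4 * (α + β + m) ^ 3 : ℤ) : ℝ) ≤ ((9 * (Wz + 3 * β * m ^ 2 + 3 * (α * m ^ 2 - M) +
      (Φ + 3 * m ^ 2)) : ℤ) : ℝ) := by
      push_cast
      linarith
    exact_mod_cast this
  -- the total
  have htot := total h F
  have t3' : (α + β) * (m * m - m) - M - m * m ≤ SS E Fᶜ F F := by
    refine le_trans ?_ t3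
    rw [sum_sub_distrib, sum_const, nsmul_eq_mul, hpc, ← hAB, sum_union hdis]
    linarith
  rw [← hnc] at hRz
  have e1 : 0 ≤ n := by linarith
  have e2 : (α + β) ≤ n := by linarith
  have e3 : m ≤ n := by linarith
  have e4 : n * (α + β) ≤ n * n := mul_le_mul_of_nonneg_left e2 e1
  have e5 : m * m ≤ n * n := mul_le_mul e3 e3 hm0 e1
  have e6 : (α + β) * m ≤ n * n := mul_le_mul e2 e3 hm0 e1
  rw [htot]
  rw [hWz] at hRz
  nlinarith

end Pool.Agent.R810.TT
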