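import Pool.Agent.R810.TT.Asy

/-! Any number of colours. -/

set_option autoImplicit false
open Finset
open scoped Classical

namespace Pool.Agent.R810.TT

open Pool.Agent.R810.TC (Covers MonoIn)

variable {n : ℕ}

/-- the number of the ordered pairs with a colour in `K` -/
noncomputable def pc {κ : Type} (c : Fin n → Fin n → κ) (K : Set κ) : ℕ :=
  ({p | p.1 ≠ p.2 ∧ c p.1 p.2 ∈ K} : Set (Fin n × Fin n)).ncard

theorem ncard_eq (P : Fin n × Fin n → Prop) [DecidablePred P] :
    ({p | P p} : Set (Fin n × Fin n)).ncard = ((univ : Finset (Fin n × Fin n)).filter P).card := by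
  rw [← Set.ncard_coe_finset]
  congr 1
  ext p
  simp

theorem sum_eq (P : Fin n × Fin n → Prop) [DecidablePred P] :
    ∑ x, ∑ y, (if P (x, y) then (1 : ℤ) else 0) = (({p | P p} : Set (Fin n × Fin n)).ncard : ℤ) := by
  rw [ncard_eq, card_filter, Fintype.sum_prod_type]
  push_cast
  rfl

theorem pc_union {κ : Type} (c : Fin n → Fin n → κ) {K L : Set κ} (h : Disjoint K L) :
    pc c (K ∪ L) = pc c K + pc c L := by
  unfold pc
  rw [← Set.ncard_union_eq _ (Set.toFinite _) (Set.toFinite _)]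
  · congr 1
    ext p
    simp only [Set.mem_union, Set.mem_ofPred_eq]
    tauto
  · rw [Set.disjoint_left]
    rintro p ⟨-, h1⟩ ⟨-, h2⟩
    exact Set.disjoint_left.1 h h1 h2

theorem pc_univ {κ : Type} (c : Fin n → Fin n → κ) : (pc c Set.univ : ℝ) = (n : ℝ) * (n - 1) := by
  have h1 : pc c Set.univ + n = n * n := by
    have e0 : pc c Set.univ = ((univ : Finset (Fin n × Fin n)).filter fun p => p.1 ≠ p.2).card := by
      unfold pc
      rw [← ncard_eq]
      congr 1
      ext p
      simp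
    have e := card_filter_add_card_filter_not (s := (univ : Finset (Fin n × Fin n)))
      (fun p => p.1 ≠ p.2)
    have e1 : (univ.filter fun p : Fin n × Fin n => ¬ (p.1 ≠ p.2)).card = n := by
      have : (univ.filter fun p : Fin n × Fin n => ¬ (p.1 ≠ p.2)) =
          (univ : Finset (Fin n)).image fun x => (x, x) := by
        ext ⟨x, y⟩
        simp only [mem_filter, mem_univ, true_and, mem_image, Prod.mk.injEq, not_not, ne_eq]
        constructor
        · intro h; exact ⟨x, rfl, h⟩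
        · rintro ⟨a, h1, h2⟩; rw [← h1, ← h2]
      rw [this, card_image_of_injective _ (fun a b h => (Prod.mk.inj h).1), card_univ,
        Fintype.card_fin]
    rw [card_univ, Fintype.card_prod, Fintype.card_fin] at e
    omega
  have h2 : ((pc c Set.univ + n : ℕ) : ℝ) = ((n * n : ℕ) : ℝ) := by rw [h1]
  push_cast at h2
  linarith

theorem pc_compl {κ : Type} (c : Fin n → Fin n → κ) (K : Set κ) :
    (pc c K : ℝ) + pc c Kᶜ = (n : ℝ) * (n - 1) := by
  rw [← pc_univ c, ← Set.union_compl_self K, pc_union c disjoint_compl_right]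
  push_cast
  rfl

/-- a good set of colours -/
theorem exists_split {κ : Type} (c : Fin n → Fin n → κ) (hn : 2 ≤ n)
    (h : ∀ s, (pc c {s} : ℝ) ≤ 9 / 10 * ((n : ℝ) * (n - 1))) :
    ∃ K : Set κ, (n : ℝ) * (n - 1) / 10 ≤ pc c K ∧ (n : ℝ) * (n - 1) / 10 ≤ pc c Kᶜ := by
  set N : ℝ := (n : ℝ) * (n - 1) with hN
  have hnR : (2 : ℝ) ≤ n := by exact_mod_cast hn
  have hN0 : 0 < N := by
    rw [hN]
    apply mul_pos <;> linarith
  -- the set of colours
  set S : Finset κ := (univ : Finset (Fin n × Fin n)).image fun p => c p.1 p.2 with hS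
  set Q : Finset (Finset κ) := S.powerset.filter fun K => (pc c (K : Set κ) : ℝ) ≤ 9 / 10 * N with hQ
  have hmemQ : ∀ K : Finset κ, K ∈ Q ↔ K ⊆ S ∧ (pc c (K : Set κ) : ℝ) ≤ 9 / 10 * N := by
    intro K
    rw [hQ, mem_filter, mem_powerset]
  have hQne : Q.Nonempty := by
    refine ⟨∅, (hmemQ _).2 ⟨empty_subset _, ?_⟩⟩
    have : pc c ((∅ : Finset κ) : Set κ) = 0 := by
      unfold pc
      rw [Set.ncard_eq_zero (Set.toFinite _)]
      ext p
      simp
    rw [this]
    push_cast
    linarith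
  obtain ⟨K, hK, hmax⟩ := exists_max_image Q (fun K => pc c (K : Set κ)) hQne
  obtain ⟨hKS, hK9⟩ := (hmemQ K).1 hK
  have hcompl := pc_compl c (K : Set κ)
  rw [← hN] at hcompl
  by_cases h1 : N / 10 ≤ pc c (K : Set κ)
  · exact ⟨K, h1, by linarith⟩
  · exfalso
    push Not at h1
    -- a pair with a colour outside `K`
    have h2 : 0 < pc c (K : Set κ)ᶜ := by
      have : (0 : ℝ) < pc c (K : Set κ)ᶜ := by linarith
      exact_mod_cast this
    unfold pc at h2
    obtain ⟨p, hp1, hp2⟩ := (Set.ncard_pos (Set.toFinite _)).1 h2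
    set s := c p.1 p.2 with hs
    have hsK : s ∉ K := fun hh => hp2 hh
    have hsS : s ∈ S := by rw [hS]; exact mem_image_of_mem _ (mem_univ p)
    have hspos : 0 < pc c {s} := by
      unfold pc
      exact (Set.ncard_pos (Set.toFinite _)).2 ⟨p, hp1, rfl⟩
    have hins : pc c ((insert s K : Finset κ) : Set κ) = pc c {s} + pc c (K : Set κ) := by
      rw [coe_insert, Set.insert_eq]
      apply pc_union
      rw [Set.disjoint_singleton_left]
      exact fun hh => hsK (mem_coe.1 hh)
    have h3 : ¬ ((pc c ((insert s K : Finset κ) : Set κ) : ℝ) ≤ 9 / 10 * N) := by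
      intro hle
      have := hmax _ ((hmemQ _).2 ⟨insert_subset hsS hKS, hle⟩)
      rw [hins] at this
      omega
    rw [hins] at h3
    push Not at h3
    push_cast at h3
    have h4 : ({s} : Finset κ) ∈ Q := by
      refine (hmemQ _).2 ⟨singleton_subset_iff.2 hsS, ?_⟩
      rw [coe_singleton]
      exact h s
    have h5 := hmax _ h4
    rw [coe_singleton] at h5
    have h6 : (pc c {s} : ℝ) ≤ pc c (K : Set κ) := by exact_mod_cast h5
    linarith

theorem BB_eq {κ : Type} (c : Fin n → Fin n → κ) (K : Set κ) :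
    (BB (wS (fun x y => decide (c x y ∈ K)) true) : ℝ) = pc c K ∧
    (BB (wS (fun x y => decide (c x y ∈ K)) false) : ℝ) = pc c Kᶜ := by
  constructor
  · have : BB (wS (fun x y => decide (c x y ∈ K)) true) = (pc c K : ℤ) := by
      have e := sum_eq (n := n) (fun p => p.1 ≠ p.2 ∧ decide (c p.1 p.2 ∈ K) = true)
      unfold BB wS pc
      rw [e]
      congr 2
      ext p
      simp
    rw [this]
    push_cast
    rfl
  · have : BB (wS (fun x y => decide (c x y ∈ K)) false) = (pc c Kᶜ : ℤ) := by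
      have e := sum_eq (n := n) (fun p => p.1 ≠ p.2 ∧ decide (c p.1 p.2 ∈ K) = false)
      unfold BB wS pc
      rw [e]
      congr 2
      ext p
      simp
    rw [this]
    push_cast
    rfl

/-- **Any number of colours.** -/
theorem robust_many {η : ℝ} (hη : 0 < η) :
    ∃ ε : ℝ, 0 < ε ∧ ∃ n0 : ℕ, ∀ n, n0 ≤ n → ∀ T : Finset (Finset (Fin n)),
      (∀ e ∈ T, e.card = 3) → Covers T → ∀ (κ : Type) (c : Fin n → Fin n → κ),
      (∀ x y, c x y = c y x) →
      (({e | e ∈ T ∧ ∀ s, ¬ MonoIn c s e} : Set (Finset (Fin n))).ncard : ℝ) ≤ ε * (n : ℝ) ^ 3 →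
      (∀ s, (({p | p.1 ≠ p.2 ∧ c p.1 p.2 = s} : Set (Fin n × Fin n)).ncard : ℝ) ≤
        9 / 10 * ((n : ℝ) * (n - 1))) →
      (4 / 9 - η) * (n.choose 3 : ℝ) ≤ (T.card : ℝ) := by
  obtain ⟨ε, hε, n0, h⟩ := robust2 hη
  refine ⟨ε, hε, max n0 2, fun n hn T h3 hT κ c hs hbad hcol => ?_⟩
  have hpc : ∀ s, (pc c {s} : ℝ) ≤ 9 / 10 * ((n : ℝ) * (n - 1)) := by
    intro s
    exact hcol s
  obtain ⟨K, hK1, hK2⟩ := exists_split c ((le_max_right _ _).trans hn) hpc
  obtain ⟨b1, b2⟩ := BB_eq c K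
  refine h n ((le_max_left _ _).trans hn) T h3 hT (fun x y => decide (c x y ∈ K))
    (fun x y => by simp only [hs x y]) ?_ ?_
  · refine le_trans ?_ hbad
    rw [← Set.ncard_coe_finset]
    refine Nat.cast_le.2 (Set.ncard_le_ncard ?_ (Set.toFinite _))
    intro e he
    rw [mem_coe] at he
    unfold bad2 at he
    rw [mem_filter] at he
    refine ⟨he.1, fun s hs' => he.2 (decide (s ∈ K)) ?_⟩
    intro x hx y hy hxy
    simp only [hs' x hx y hy hxy]
  · intro s
    cases s
    · rw [b2]; exact hK2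
    · rw [b1]; exact hK1

end Pool.Agent.R810.TT
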