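import Pool.Agent.R810.TT.Ineq

/-! Real inequalities. -/

set_option autoImplicit false

namespace Pool.Agent.R810.TT

/-- the lower bound divided by the cube of the size of the last class -/
noncomputable def gg (s r : ℝ) : ℝ :=
  5 / 9 * s ^ 3 + 5 / 9 * r ^ 3 + 5 / 3 * s ^ 2 - 4 / 3 * r ^ 2 + (813 / 1000 - 4 / 3) * s +
    5 / 3 * r - 4 / 3 * (s ^ 2 * r) + 5 / 3 * (s * r ^ 2) - 8 / 3 * (s * r) - 1 / 9

/-- large `r` -/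
theorem gg_a {s r : ℝ} (hs : 0 ≤ s) (hs2 : s ≤ 1 / 2) (hr : 1 / 2 ≤ r) (hr1 : r ≤ 1) :
    0 ≤ gg s r := by
  have h1 : gg (1 / 2) r = 5 / 9 * r ^ 3 - 1 / 2 * r ^ 2 + (5 / 9 / 8 + 5 / 12 +
      (813 / 1000 - 4 / 3) / 2 - 1 / 9) := by
    unfold gg; ring
  have h2 : 0 ≤ gg (1 / 2) r := by
    rw [h1]
    nlinarith [mul_nonneg (by linarith : (0 : ℝ) ≤ r) (sq_nonneg (r - 3 / 5)),
      sq_nonneg (r - 3 / 5)]
  have h3 : gg s r - gg (1 / 2) r = (1 / 2 - s) * (-((813 / 1000 - 4 / 3) - 8 / 3 * r +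
      5 / 3 * r ^ 2 + (5 / 3 - 4 / 3 * r) * (s + 1 / 2) + 5 / 9 * (s ^ 2 + s / 2 + 1 / 4))) := by
    unfold gg; ring
  have h4 : (813 / 1000 - 4 / 3) - 8 / 3 * r + 5 / 3 * r ^ 2 + (5 / 3 - 4 / 3 * r) * (s + 1 / 2) +
      5 / 9 * (s ^ 2 + s / 2 + 1 / 4) ≤ 0 := by
    have a1 : (5 / 3 - 4 / 3 * r) * (s + 1 / 2) ≤ (5 / 3 - 4 / 3 * r) * 1 :=
      mul_le_mul_of_nonneg_left (by linarith) (by linarith)
    have a2 : s ^ 2 ≤ 1 / 4 := by nlinarith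
    have a3 : r ^ 2 ≤ 3 / 2 * r - 1 / 2 := by nlinarith
    nlinarith
  have h5 : 0 ≤ (1 / 2 - s) * (-((813 / 1000 - 4 / 3) - 8 / 3 * r +
      5 / 3 * r ^ 2 + (5 / 3 - 4 / 3 * r) * (s + 1 / 2) + 5 / 9 * (s ^ 2 + s / 2 + 1 / 4))) :=
    mul_nonneg (by linarith) (by linarith)
  linarith

/-- medium `r` -/
theorem gg_b {s r : ℝ} (hs : 0 ≤ s) (hr : 9 / 50 ≤ r) (hr1 : r ≤ 1 / 2) :
    0 ≤ gg s r := by
  obtain ⟨D, hD⟩ : ∃ D, D = 5 / 9 * r ^ 3 - 4 / 3 * r ^ 2 + 5 / 3 * r - 1 / 9 := ⟨_, rfl⟩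
  obtain ⟨q1, hq1⟩ : ∃ q1, q1 = (813 / 1000 - 4 / 3 - 4 / 45) - 8 / 3 * r + 5 / 3 * r ^ 2 := ⟨_, rfl⟩
  obtain ⟨q2, hq2⟩ : ∃ q2, q2 = 19 / 9 - 4 / 3 * r := ⟨_, rfl⟩
  have h1 : gg s r = D + q1 * s + q2 * s ^ 2 + 5 / 9 * (s * (s - 2 / 5) ^ 2) := by
    rw [hD, hq1, hq2]; unfold gg; ring
  have h2 : 0 ≤ 5 / 9 * (s * (s - 2 / 5) ^ 2) := by positivity
  have hq2p : 0 < q2 := by rw [hq2]; linarith
  have h3 : q1 ^ 2 ≤ 4 * q2 * D := by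
    obtain ⟨t, ht⟩ : ∃ t, t = r - 9 / 50 := ⟨_, rfl⟩
    have ht0 : 0 ≤ t := by linarith
    have ht1 : t ≤ 8 / 25 := by linarith
    have e : r = t + 9 / 50 := by linarith
    rw [hq1, hq2, hD, e]
    have t2 : 0 ≤ t ^ 2 := sq_nonneg t
    have t3 : 0 ≤ t * (8 / 25 - t) := mul_nonneg ht0 (by linarith)
    have t4 : 0 ≤ t ^ 2 * (8 / 25 - t) := mul_nonneg t2 (by linarith)
    have t5 : 0 ≤ t ^ 3 * (8 / 25 - t) := mul_nonneg (pow_nonneg ht0 3) (by linarith)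
    nlinarith [t3, t4, t5, pow_nonneg ht0 3]
  have h4 : 0 ≤ 4 * q2 * (D + q1 * s + q2 * s ^ 2) := by
    have : 4 * q2 * (D + q1 * s + q2 * s ^ 2) = (2 * q2 * s + q1) ^ 2 + (4 * q2 * D - q1 ^ 2) := by
      ring
    rw [this]
    have := sq_nonneg (2 * q2 * s + q1)
    linarith
  have h5 : 0 ≤ D + q1 * s + q2 * s ^ 2 := by
    have : 0 < 4 * q2 := by linarith
    exact nonneg_of_mul_nonneg_right h4 this
  linarith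

/-- small `r` -/
theorem gg_c {s r : ℝ} (hs : 21 / 50 ≤ s) (hs2 : s ≤ 1 / 2) (hr : 0 ≤ r) (hr1 : r ≤ 1 / 5) :
    0 ≤ gg s r := by
  have h1 : gg s r = (5 / 9 * s ^ 3 + 5 / 3 * s ^ 2 + (813 / 1000 - 4 / 3) * s - 1 / 9) +
      r * (5 / 3 - 4 / 3 * s ^ 2 - 8 / 3 * s + (5 / 3 * s - 4 / 3) * r + 5 / 9 * r ^ 2) := by
    unfold gg; ring
  obtain ⟨t, ht⟩ : ∃ t, t = s - 21 / 50 := ⟨_, rfl⟩
  have ht0 : 0 ≤ t := by linarith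
  have ht1 : t ≤ 2 / 25 := by linarith
  have e : s = t + 21 / 50 := by linarith
  have h2 : 1 / 200 + t ≤ 5 / 9 * s ^ 3 + 5 / 3 * s ^ 2 + (813 / 1000 - 4 / 3) * s - 1 / 9 := by
    rw [e]
    nlinarith [pow_nonneg ht0 3, sq_nonneg t]
  have h3 : 9 / 50 - 4 * t ≤ 5 / 3 - 4 / 3 * s ^ 2 - 8 / 3 * s + (5 / 3 * s - 4 / 3) * r +
      5 / 9 * r ^ 2 := by
    have a1 : (5 / 3 * s - 4 / 3) * r ≥ (5 / 3 * s - 4 / 3) * (1 / 5) :=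
      mul_le_mul_of_nonpos_left hr1 (by linarith)
    have a2 : 0 ≤ 5 / 9 * r ^ 2 := by positivity
    rw [e] at a1 ⊢
    nlinarith [sq_nonneg t]
  have h4 : r * (9 / 50 - 4 * t) ≤ r * (5 / 3 - 4 / 3 * s ^ 2 - 8 / 3 * s + (5 / 3 * s - 4 / 3) * r +
      5 / 9 * r ^ 2) := mul_le_mul_of_nonneg_left h3 hr
  have h5 : r * t ≤ 1 / 5 * t := mul_le_mul_of_nonneg_right hr1 ht0
  rw [h1]
  nlinarith

/-- the smaller class is not small -/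
theorem r_ge {s r : ℝ} (hs : 0 ≤ s) (hs2 : s ≤ 21 / 50) (hr : 0 ≤ r)
    (h : (1 + s + r) ^ 2 / 22 ≤ r * (s + r)) : 9 / 50 ≤ r := by
  by_contra hcon
  push Not at hcon
  have h1 : (1 + s + r) ^ 2 / 22 - r * (s + r) =
      (9 / 50 - r) * (21 / 22 * r + 20 / 22 * s + (21 / 22 * (9 / 50) - 2 / 22)) +
      ((1 + s + 9 / 50) ^ 2 / 22 - 9 / 50 * (s + 9 / 50)) := by ring
  have h2 : 0 ≤ (9 / 50 - r) * (21 / 22 * r + 20 / 22 * s + (21 / 22 * (9 / 50) - 2 / 22)) := by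
    have a1 : (0 : ℝ) ≤ 21 / 22 * (9 / 50) - 2 / 22 := by norm_num
    apply mul_nonneg (by linarith) (by positivity)
  have h3 : 0 < (1 + s + 9 / 50) ^ 2 / 22 - 9 / 50 * (s + 9 / 50) := by
    nlinarith [sq_nonneg (s - 21 / 50)]
  linarith

/-- the large second class -/
noncomputable def hh (s p : ℝ) : ℝ :=
  5 / 9 * s ^ 3 + 1 / 3 * s ^ 2 - (7 / 3 - 813 / 1000) * s + 7 / 9 +
    p * (2 / 3 + 2 / 3 * s - 4 / 3 * s ^ 2) + p ^ 2 * (1 / 3 + 5 / 3 * s) - 4 / 9 * p ^ 3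

theorem hh_nonneg {s p : ℝ} (hs : 0 ≤ s) (hs2 : s ≤ 1 / 2) (hp : 0 ≤ p)
    (h : p ≤ 1 / 2 + 3 / 2 * s) : 0 ≤ hh s p := by
  unfold hh
  have h1 : 0 ≤ 5 / 9 * s ^ 3 + 1 / 3 * s ^ 2 - (7 / 3 - 813 / 1000) * s + 7 / 9 := by
    have : 0 ≤ s ^ 3 := pow_nonneg hs 3
    nlinarith [sq_nonneg s]
  have h2 : 0 ≤ p * (2 / 3 + 2 / 3 * s - 4 / 3 * s ^ 2) := by
    apply mul_nonneg hp
    nlinarith
  have h3 : 0 ≤ p ^ 2 * (1 / 3 + 5 / 3 * s - 4 / 9 * p) := by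
    apply mul_nonneg (sq_nonneg p)
    linarith
  nlinarith

/-- the bracket -/
theorem kG {x z M Φ : ℝ} (hx : 0 ≤ x) (hz : 0 ≤ z) (hM0 : 0 ≤ M) (hM1 : M ≤ x * z ^ 2)
    (hΦ : z ^ 3 / 3 ≤ Φ) (hG : 2 * M ^ 2 - z ^ 2 * x * M ≤ x ^ 2 * z * Φ) :
    ∃ e : ℝ, 0 ≤ e ∧ e ≤ 1 ∧ 3 * (x * z ^ 2 - M) = 3 * (1 - e) * (x * z ^ 2) ∧
      (2 * e ^ 2 - e) * z ^ 3 ≤ Φ := by
  rcases eq_or_lt_of_le (by positivity : 0 ≤ x * z ^ 2) with h0 | hpos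
  · refine ⟨0, le_refl _, by norm_num, ?_, ?_⟩
    · have : M = 0 := le_antisymm (by linarith) hM0
      rw [this]; ring
    · have : 0 ≤ z ^ 3 / 3 := by positivity
      have e : (2 * (0 : ℝ) ^ 2 - 0) * z ^ 3 = 0 := by ring
      rw [e]
      linarith
  · have hx' : 0 < x := by
      rcases eq_or_lt_of_le hx with h | h
      · rw [← h] at hpos; norm_num at hpos
      · exact h
    have hz' : 0 < z := by
      rcases eq_or_lt_of_le hz with h | h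
      · rw [← h] at hpos; norm_num at hpos
      · exact h
    refine ⟨M / (x * z ^ 2), by positivity, (div_le_one hpos).2 hM1, ?_, ?_⟩
    · field_simp
    · have hc : 0 < x ^ 2 * z := by positivity
      refine le_of_mul_le_mul_left ?_ hc
      refine le_trans (le_of_eq ?_) hG
      field_simp

theorem kA {x z e Φ : ℝ} (hx : 0 ≤ x) (hz : 0 ≤ z) (he1 : e ≤ 1)
    (h1 : z ≤ x) (h : (2 * e ^ 2 - e) * z ^ 3 ≤ Φ) :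
    z ^ 3 ≤ 3 * (1 - e) * (x * z ^ 2) + Φ := by
  have h2 : 3 * (1 - e) * (z * z ^ 2) ≤ 3 * (1 - e) * (x * z ^ 2) := by
    apply mul_le_mul_of_nonneg_left
    · exact mul_le_mul_of_nonneg_right h1 (sq_nonneg z)
    · linarith
  have h3 : 0 ≤ 2 * (1 - e) ^ 2 * z ^ 3 := by positivity
  nlinarith

theorem kB {x z e Φ : ℝ} (hz : 0 ≤ z) (h : (2 * e ^ 2 - e) * z ^ 3 ≤ Φ) :
    z ^ 3 - 9 / 8 * z * (z - x) ^ 2 ≤ 3 * (1 - e) * (x * z ^ 2) + Φ := by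
  have h3 : 0 ≤ 2 * z * (e * z - (z + 3 * x) / 4) ^ 2 := by positivity
  nlinarith

theorem kT {x z e Φ : ℝ} (hx : 0 ≤ x) (hz : 0 ≤ z) (h1 : 2 * x ≤ z)
    (hΦ : z ^ 3 / 3 ≤ Φ) (h : (2 * e ^ 2 - e) * z ^ 3 ≤ Φ) :
    z ^ 3 / 3 + 813 / 1000 * (x * z ^ 2) ≤ 3 * (1 - e) * (x * z ^ 2) + Φ := by
  have hxz : 0 ≤ x * z ^ 2 := by positivity
  rcases le_or_gt e (729 / 1000) with h2 | h2
  · have : 0 ≤ (729 / 1000 - e) * (x * z ^ 2) := mul_nonneg (by linarith) hxz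
    linarith
  · have a1 : 0 ≤ (e - 729 / 1000) * ((2 * e + 458 / 1000) * z - 3 * x) * z ^ 2 := by
      apply mul_nonneg (mul_nonneg (by linarith) _) (sq_nonneg z)
      have : 0 ≤ (2 * e + 458 / 1000 - 3 / 2) * z := mul_nonneg (by linarith) hz
      linarith
    have a2 : 0 ≤ z ^ 3 := pow_nonneg hz 3
    nlinarith

end Pool.Agent.R810.TT
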