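import Pool.Agent.R810.TC.Rob
import Pool.Agent.R810.TT.Chb
import Pool.Agent.R810.TT.Main

/-! Random samples. -/

set_option autoImplicit false
open Finset
open scoped Classical

namespace Pool.Agent.R810.TT

open Pool.Agent.R810.LJ (ind ind_t ind_f ind_nonneg ord_le_six)
open Pool.Agent.R810.TC (Covers MonoIn DI mem_DI DI_card_le sum3' sum_triple ind_zero four_T mon prs
  Col dominating)

section Any

variable {V : Type*} [DecidableEq V] [Fintype V] {E : V → V → V → Prop} {c : V → V → Bool}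

theorem two_any (h : Cv E c) (hV : 0 < Fintype.card V)
    (hb : ∀ s : Bool, (Fintype.card V : ℤ) ^ 2 ≤ 11 * prs c univ s) :
    4 * (Fintype.card V : ℤ) ^ 3 ≤ 9 * SS E univ univ univ + 144 * (Fintype.card V : ℤ) ^ 2 := by
  have hne : (univ : Finset V).Nonempty := card_pos.1 (by rw [card_univ]; exact hV)
  obtain ⟨v, -, s, hs⟩ := dominating (good_of h.col) hne
  cases s
  · have h' : Cv E (fun x y => !(c x y)) := by
      refine ⟨⟨h.col.four, fun a b => by rw [h.col.symm a b], ?_⟩, h.s12, h.s23⟩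
      intro a b d h1 h2 h3 h4
      obtain ⟨q1, q2⟩ := h.col.mono a b d h1 h2 h3 h4
      exact ⟨by rw [q1], by rw [q2]⟩
    refine two_main h' ⟨v, fun y hy => ?_⟩ ?_
    · rw [hs y (mem_univ y) hy]; rfl
    · have e : prs (fun x y => !(c x y)) univ false = prs c univ true := by
        unfold prs
        refine sum_congr rfl fun x _ => sum_congr rfl fun y _ => ?_
        cases hcxy : c x y <;> simp [hcxy]
      rw [e]
      exact hb true
  · exact two_main h ⟨v, fun y hy => hs y (mem_univ y) hy⟩ (hb false)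

end Any

variable {n k : ℕ}

/-- the triples which are not monochromatic -/
noncomputable def bad2 (T : Finset (Finset (Fin n))) (c : Fin n → Fin n → Bool) :
    Finset (Finset (Fin n)) := T.filter fun e => ∀ s, ¬ MonoIn c s e

/-- the pairs of a colour -/
def wS (c : Fin n → Fin n → Bool) (s : Bool) (x y : Fin n) : ℤ := if x ≠ y ∧ c x y = s then 1 else 0

/-- reasons why a map is bad -/
noncomputable def bet2 (T : Finset (Finset (Fin n))) (c : Fin n → Fin n → Bool) (f : Fin k → Fin n)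
    (t : Fin k × Fin k × Fin k) : ℤ :=
  ind (f t.1 = f t.2.1) + ind (({f t.1, f t.2.1, f t.2.2} : Finset (Fin n)) ∈ bad2 T c)

/-- a colour which is rare -/
noncomputable def gam2 (c : Fin n → Fin n → Bool) (f : Fin k → Fin n) (s : Bool) : ℤ :=
  ind (11 * XX (wS c s) f < (k : ℤ) ^ 2)

theorem one_map2 (hk : 3 ≤ k) {T : Finset (Finset (Fin n))} (h3 : ∀ e ∈ T, e.card = 3)
    (hT : Covers T) {c : Fin n → Fin n → Bool} (hs : ∀ x y, c x y = c y x)
    (f : Fin k → Fin n) (hA : 0 ≤ 4 * (k : ℤ) ^ 3 - 144 * (k : ℤ) ^ 2) :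
    (4 * (k : ℤ) ^ 3 - 144 * (k : ℤ) ^ 2) * (1 - ∑ t ∈ DI (Fin k), bet2 T c f t - ∑ s, gam2 c f s) ≤
      9 * ∑ t ∈ DI (Fin k), ind (({f t.1, f t.2.1, f t.2.2} : Finset (Fin n)) ∈ T) := by
  have hbn : ∀ t, 0 ≤ bet2 T c f t := by
    intro t
    unfold bet2
    have h1 := ind_nonneg (f t.1 = f t.2.1)
    have h2 := ind_nonneg (({f t.1, f t.2.1, f t.2.2} : Finset (Fin n)) ∈ bad2 T c)
    linarith
  have hb0 : 0 ≤ ∑ t ∈ DI (Fin k), bet2 T c f t := sum_nonneg fun t _ => hbn t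
  have hg0 : ∀ s ∈ (univ : Finset Bool), 0 ≤ gam2 c f s := fun s _ => ind_nonneg _
  have hg0' : 0 ≤ ∑ s, gam2 c f s := sum_nonneg hg0
  have hN0 : 0 ≤ ∑ t ∈ DI (Fin k),
      ind (({f t.1, f t.2.1, f t.2.2} : Finset (Fin n)) ∈ T) := sum_nonneg fun t _ => ind_nonneg _
  by_cases hz : ∑ t ∈ DI (Fin k), bet2 T c f t + ∑ s, gam2 c f s = 0
  · have z1 : ∑ t ∈ DI (Fin k), bet2 T c f t = 0 := by linarith
    have z2 : ∑ s, gam2 c f s = 0 := by linarith
    rw [z1, z2, sub_zero, sub_zero, mul_one]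
    have y1 := (sum_eq_zero_iff_of_nonneg fun t _ => hbn t).1 z1
    have y2 := (sum_eq_zero_iff_of_nonneg hg0).1 z2
    have third : ∀ a b : Fin k, a ≠ b → ∃ d, a ≠ d ∧ b ≠ d := by
      intro a b hab
      have hc : ((univ.erase a).erase b).card = k - 1 - 1 := by
        rw [card_erase_of_mem (mem_erase.2 ⟨hab.symm, mem_univ _⟩),
          card_erase_of_mem (mem_univ _), card_univ, Fintype.card_fin]
      obtain ⟨l, hl⟩ : ((univ.erase a).erase b).Nonempty := card_pos.1 (by omega)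
      exact ⟨l, (mem_erase.1 (mem_erase.1 hl).2).1.symm, (mem_erase.1 hl).1.symm⟩
    have hbz : ∀ t ∈ DI (Fin k), f t.1 ≠ f t.2.1 ∧
        ¬ (({f t.1, f t.2.1, f t.2.2} : Finset (Fin n)) ∈ bad2 T c) := by
      intro t ht
      have := y1 t ht
      unfold bet2 at this
      have h1 := ind_nonneg (f t.1 = f t.2.1)
      have h2 := ind_nonneg (({f t.1, f t.2.1, f t.2.2} : Finset (Fin n)) ∈ bad2 T c)
      exact ⟨ind_zero (by linarith), ind_zero (by linarith)⟩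
    have hinj : ∀ a b : Fin k, a ≠ b → f a ≠ f b := by
      intro a b hab
      obtain ⟨d, had, hbd⟩ := third a b hab
      exact (hbz (a, b, d) (mem_DI.2 ⟨hab, had, hbd⟩)).1
    have hmono : ∀ x y z, x ≠ y → x ≠ z → y ≠ z →
        ({f x, f y, f z} : Finset (Fin n)) ∈ T →
          c (f x) (f y) = c (f x) (f z) ∧ c (f x) (f y) = c (f y) (f z) := by
      intro x y z hxy hxz hyz he
      have h1 := (hbz (x, y, z) (mem_DI.2 ⟨hxy, hxz, hyz⟩)).2
      have h2 : ∃ s, MonoIn c s {f x, f y, f z} := by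
        by_contra hcon
        apply h1
        unfold bad2
        rw [mem_filter]
        exact ⟨he, fun s hs' => hcon ⟨s, hs'⟩⟩
      obtain ⟨s, h2⟩ := h2
      have w1 := h2 (f x) (by simp) (f y) (by simp) (hinj x y hxy)
      have w2 := h2 (f x) (by simp) (f z) (by simp) (hinj x z hxz)
      have w3 := h2 (f y) (by simp) (f z) (by simp) (hinj y z hyz)
      exact ⟨w1.trans w2.symm, w1.trans w3.symm⟩
    set E : Fin k → Fin k → Fin k → Prop := fun x y z => ({f x, f y, f z} : Finset (Fin n)) ∈ T with hE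
    have hcv : Cv E (fun x y => c (f x) (f y)) := by
      refine ⟨⟨?_, fun a b => hs _ _, fun x y z hxy hxz hyz he => hmono x y z hxy hxz hyz he⟩,
        ?_, ?_⟩
      · intro a b d e ab ad ae bd be de
        exact four_T h3 hT _ _ _ _ (hinj a b ab) (hinj a d ad) (hinj a e ae) (hinj b d bd)
          (hinj b e be) (hinj d e de)
      · intro x y z he
        simp only [hE] at he ⊢
        rwa [insert_comm]
      · intro x y z he
        simp only [hE] at he ⊢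
        rwa [pair_comm (f z) (f y)]
    have hpr : ∀ s, prs (fun x y => c (f x) (f y)) univ s = XX (wS c s) f := by
      intro s
      unfold prs XX wt wS
      refine sum_congr rfl fun x _ => sum_congr rfl fun y _ => ?_
      by_cases hxy : x = y
      · simp [hxy]
      · simp only [ne_eq, hxy, not_false_eq_true, true_and, if_true, hinj x y hxy]
    have hkey := two_any hcv (by rw [Fintype.card_fin]; omega) (by
      intro s
      rw [hpr, Fintype.card_fin]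
      have h1 := ind_zero (y2 s (mem_univ s))
      push Not at h1
      exact h1)
    rw [Fintype.card_fin] at hkey
    have e1 : SS E univ univ univ = ∑ t ∈ DI (Fin k),
        ind (({f t.1, f t.2.1, f t.2.2} : Finset (Fin n)) ∈ T) := by
      unfold SS
      rw [sum_triple (fun x y z => ee E x y z)]
      unfold DI
      rw [sum_filter]
      refine sum_congr rfl fun t _ => ?_
      unfold ee
      by_cases h5 : t.1 ≠ t.2.1 ∧ t.1 ≠ t.2.2 ∧ t.2.1 ≠ t.2.2
      · rw [if_pos h5]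
        by_cases h6 : ({f t.1, f t.2.1, f t.2.2} : Finset (Fin n)) ∈ T
        · rw [ind_t h6, if_pos ⟨h5.1, h5.2.1, h5.2.2, h6⟩]
        · rw [ind_f h6, if_neg (fun h7 => h6 h7.2.2.2)]
      · rw [if_neg h5, if_neg (fun h7 => h5 ⟨h7.1, h7.2.1, h7.2.2.1⟩)]
    rw [e1] at hkey
    linarith
  · have h1 : 1 ≤ ∑ t ∈ DI (Fin k), bet2 T c f t + ∑ s, gam2 c f s := by
      have : 0 ≤ ∑ t ∈ DI (Fin k), bet2 T c f t + ∑ s, gam2 c f s := by linarith
      omega
    have h2 : (4 * (k : ℤ) ^ 3 - 144 * (k : ℤ) ^ 2) *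
        (1 - ∑ t ∈ DI (Fin k), bet2 T c f t - ∑ s, gam2 c f s) ≤ 0 :=
      mul_nonpos_of_nonneg_of_nonpos hA (by linarith)
    linarith

/-- the sum over all maps -/
theorem all_maps2 (hk : 3 ≤ k) {T : Finset (Finset (Fin n))} (h3 : ∀ e ∈ T, e.card = 3)
    (hT : Covers T) {c : Fin n → Fin n → Bool} (hs : ∀ x y, c x y = c y x)
    (hA : 0 ≤ 4 * (k : ℤ) ^ 3 - 144 * (k : ℤ) ^ 2) :
    (4 * (k : ℤ) ^ 3 - 144 * (k : ℤ) ^ 2) * ((n : ℤ) ^ k - ((DI (Fin k)).card : ℤ) *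
      ((n : ℤ) ^ (k - 3) * (n : ℤ) ^ 2 + (n : ℤ) ^ (k - 3) * (6 * ((bad2 T c).card : ℤ))) -
      ∑ s, ∑ f : Fin k → Fin n, gam2 c f s) ≤
      9 * (((DI (Fin k)).card : ℤ) * ((n : ℤ) ^ (k - 3) * (6 * (T.card : ℤ)))) := by
  have e1 : ∑ f : Fin k → Fin n, ∑ t ∈ DI (Fin k),
      ind (({f t.1, f t.2.1, f t.2.2} : Finset (Fin n)) ∈ T) =
      ((DI (Fin k)).card : ℤ) * ((n : ℤ) ^ (k - 3) *
        ∑ x : Fin n, ∑ y : Fin n, ∑ z : Fin n, ind (({x, y, z} : Finset (Fin n)) ∈ T)) := by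
    rw [sum_comm, ← nsmul_eq_mul, ← sum_const]
    refine sum_congr rfl fun t ht => ?_
    obtain ⟨d1, d2, d3⟩ := mem_DI.1 ht
    have := sum3' d1 d2 d3 (fun x y z : Fin n => ind (({x, y, z} : Finset (Fin n)) ∈ T))
    rw [Fintype.card_fin, Fintype.card_fin] at this
    exact this
  have e2 : ∑ f : Fin k → Fin n, ∑ t ∈ DI (Fin k), bet2 T c f t =
      ((DI (Fin k)).card : ℤ) * ((n : ℤ) ^ (k - 3) * (n : ℤ) ^ 2 +
      (n : ℤ) ^ (k - 3) * ∑ x : Fin n, ∑ y : Fin n, ∑ z : Fin n,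
        ind (({x, y, z} : Finset (Fin n)) ∈ bad2 T c)) := by
    rw [sum_comm, ← nsmul_eq_mul, ← sum_const]
    refine sum_congr rfl fun t ht => ?_
    obtain ⟨d1, d2, d3⟩ := mem_DI.1 ht
    unfold bet2
    rw [sum_add_distrib]
    have s1 := sum3' d1 d2 d3 (fun x y _ : Fin n => ind (x = y))
    have s2 := sum3' d1 d2 d3 (fun x y z : Fin n => ind (({x, y, z} : Finset (Fin n)) ∈ bad2 T c))
    rw [Fintype.card_fin, Fintype.card_fin] at s1 s2
    have u1 : ∑ x : Fin n, ∑ y : Fin n, ∑ _z : Fin n, ind (x = y) = (n : ℤ) ^ 2 := by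
      have : ∀ x y : Fin n, ∑ _z : Fin n, ind (x = y) = if x = y then (n : ℤ) else 0 := by
        intro x y
        rw [sum_const, card_univ, Fintype.card_fin, nsmul_eq_mul]
        unfold ind
        split_ifs <;> simp
      rw [sum_congr rfl fun x _ => sum_congr rfl fun y _ => this x y]
      rw [sum_congr rfl fun x _ => by rw [sum_ite_eq univ x, if_pos (mem_univ _)]]
      rw [sum_const, card_univ, Fintype.card_fin, nsmul_eq_mul]
      ring
    rw [s1, s2, u1]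
  have e3 : ∑ f : Fin k → Fin n, ∑ s, gam2 c f s = ∑ s, ∑ f : Fin k → Fin n, gam2 c f s := sum_comm
  have e4 := sum_le_sum fun (f : Fin k → Fin n) (_ : f ∈ univ) => one_map2 hk h3 hT hs f hA
  rw [← mul_sum, ← mul_sum, e1, sum_sub_distrib, sum_sub_distrib, e2, e3, sum_const, card_univ,
    Fintype.card_fun, Fintype.card_fin, Fintype.card_fin, nsmul_eq_mul, mul_one] at e4
  push_cast at e4
  have hT6 := ord_le_six h3
  have hB3 : ∀ e ∈ bad2 T c, e.card = 3 := fun e he => h3 e (mem_filter.1 he).1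
  have hB6 := ord_le_six hB3
  set OT := ∑ x : Fin n, ∑ y : Fin n, ∑ z : Fin n, ind (({x, y, z} : Finset (Fin n)) ∈ T)
  set OB := ∑ x : Fin n, ∑ y : Fin n, ∑ z : Fin n, ind (({x, y, z} : Finset (Fin n)) ∈ bad2 T c)
  have hn : (0 : ℤ) ≤ (n : ℤ) ^ (k - 3) := by positivity
  have hD : (0 : ℤ) ≤ ((DI (Fin k)).card : ℤ) := Int.natCast_nonneg _
  have m1 : ((DI (Fin k)).card : ℤ) * ((n : ℤ) ^ (k - 3) * OT) ≤
      ((DI (Fin k)).card : ℤ) * ((n : ℤ) ^ (k - 3) * (6 * (T.card : ℤ))) :=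
    mul_le_mul_of_nonneg_left (mul_le_mul_of_nonneg_left hT6 hn) hD
  have m2 : ((DI (Fin k)).card : ℤ) * ((n : ℤ) ^ (k - 3) * (n : ℤ) ^ 2 +
      (n : ℤ) ^ (k - 3) * OB) ≤ ((DI (Fin k)).card : ℤ) *
      ((n : ℤ) ^ (k - 3) * (n : ℤ) ^ 2 + (n : ℤ) ^ (k - 3) * (6 * ((bad2 T c).card : ℤ))) := by
    refine mul_le_mul_of_nonneg_left ?_ hD
    have := mul_le_mul_of_nonneg_left hB6 hn
    linarith
  have m3 : (4 * (k : ℤ) ^ 3 - 144 * (k : ℤ) ^ 2) * ((n : ℤ) ^ k - ((DI (Fin k)).card : ℤ) *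
      ((n : ℤ) ^ (k - 3) * (n : ℤ) ^ 2 + (n : ℤ) ^ (k - 3) * (6 * ((bad2 T c).card : ℤ))) -
      ∑ s, ∑ f : Fin k → Fin n, gam2 c f s) ≤ (4 * (k : ℤ) ^ 3 - 144 * (k : ℤ) ^ 2) *
      ((n : ℤ) ^ k - ((DI (Fin k)).card : ℤ) * ((n : ℤ) ^ (k - 3) * (n : ℤ) ^ 2 +
      (n : ℤ) ^ (k - 3) * OB) - ∑ s, ∑ f : Fin k → Fin n, gam2 c f s) :=
    mul_le_mul_of_nonneg_left (by linarith) hA
  linarith

/-- Chebyshev's inequality -/
theorem cheb2 (hk : 4 ≤ k) (hn : 0 < n) (c : Fin n → Fin n → Bool) (s : Bool) {b : ℝ}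
    (hb : (BB (wS c s) : ℝ) = b * (n : ℝ) ^ 2) (hb1 : 1 / 11 + 1 / 200 ≤ b)
    (hk2 : 400 ≤ k) :
    ((∑ f : Fin k → Fin n, gam2 c f s : ℤ) : ℝ) * (k : ℝ) ≤ 960000 * (n : ℝ) ^ k := by
  have hv := variance (I := Fin k) (V := Fin n) (w := wS c s) (by rw [Fintype.card_fin]; exact hk)
    (by rw [Fintype.card_fin]; exact hn)
    (fun x y => by unfold wS; split_ifs <;> norm_num) (fun x y => by unfold wS; split_ifs <;> norm_num)
    (b := b) (by rw [Fintype.card_fin]; exact hb)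
  rw [Fintype.card_fin, Fintype.card_fin] at hv
  have hkR : (400 : ℝ) ≤ k := by exact_mod_cast hk2
  have hnR : (0 : ℝ) < n := by exact_mod_cast hn
  have hble : b ≤ 1 := by
    have h1 : BB (wS c s) ≤ ∑ x : Fin n, ∑ y : Fin n, (1 : ℤ) := by
      refine sum_le_sum fun x _ => sum_le_sum fun y _ => ?_
      unfold wS; split_ifs <;> norm_num
    have h2 : (∑ x : Fin n, ∑ y : Fin n, (1 : ℤ)) = (n : ℤ) * n := by simp
    rw [h2] at h1
    have h3 : (BB (wS c s) : ℝ) ≤ (n : ℝ) * n := by exact_mod_cast h1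
    rw [hb] at h3
    have h4 : b * (n : ℝ) ^ 2 ≤ 1 * (n : ℝ) ^ 2 := by linarith [sq (n : ℝ)]
    exact le_of_mul_le_mul_right h4 (by positivity)
  set g : ℝ := (k : ℝ) ^ 2 / 400 with hg
  have hterm : ∀ f : Fin k → Fin n, ((gam2 c f s : ℤ) : ℝ) * g ^ 2 ≤
      ((XX (wS c s) f : ℝ) - (k : ℝ) * (k - 1) * b) ^ 2 := by
    intro f
    unfold gam2
    by_cases h1 : 11 * XX (wS c s) f < (k : ℤ) ^ 2
    · rw [ind_t h1]
      have h2 : 11 * (XX (wS c s) f : ℝ) ≤ (k : ℝ) ^ 2 := by exact_mod_cast h1.le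
      have h3 : g ≤ (k : ℝ) * (k - 1) * b - (XX (wS c s) f : ℝ) := by
        have h5 : (k : ℝ) * (k - 1) * b ≥ (k : ℝ) ^ 2 * b - k := by nlinarith
        have h6 : (k : ℝ) ^ 2 * (1 / 11 + 1 / 200) ≤ (k : ℝ) ^ 2 * b :=
          mul_le_mul_of_nonneg_left hb1 (by positivity)
        have h7 : (k : ℝ) ≤ (k : ℝ) ^ 2 / 400 := by nlinarith
        rw [hg]
        linarith
      have h4 : 0 ≤ g := by rw [hg]; positivity
      have h5 : g ^ 2 ≤ ((k : ℝ) * (k - 1) * b - (XX (wS c s) f : ℝ)) ^ 2 :=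
        pow_le_pow_left₀ h4 h3 2
      have h6 : ((XX (wS c s) f : ℝ) - (k : ℝ) * (k - 1) * b) ^ 2 =
          ((k : ℝ) * (k - 1) * b - (XX (wS c s) f : ℝ)) ^ 2 := by ring
      rw [h6]
      simpa using h5
    · rw [ind_f h1]
      simp only [Int.cast_zero, zero_mul]
      exact sq_nonneg _
  have hsum : ((∑ f : Fin k → Fin n, gam2 c f s : ℤ) : ℝ) * g ^ 2 ≤
      6 * (k : ℝ) ^ 3 * (n : ℝ) ^ k := by
    push_cast
    rw [sum_mul]
    exact (sum_le_sum fun f _ => hterm f).trans hv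
  have hg2 : g ^ 2 = (k : ℝ) ^ 3 * (k : ℝ) / 160000 := by rw [hg]; ring
  rw [hg2] at hsum
  have hk3 : (0 : ℝ) < (k : ℝ) ^ 3 := by positivity
  have h8 : (k : ℝ) ^ 3 * (((∑ f : Fin k → Fin n, gam2 c f s : ℤ) : ℝ) * (k : ℝ)) ≤
      (k : ℝ) ^ 3 * (960000 * (n : ℝ) ^ k) := by
    linarith
  exact le_of_mul_le_mul_left h8 hk3

end Pool.Agent.R810.TT
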